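import Pool.Agent.N509.TK.Qt

/-!
# One homomorphism for each edge
-/

set_option autoImplicit false

namespace Pool.Agent.N509.TK

open SimpleGraph
open Pool.Agent.Y110.FJ

variable {C : ∀ (G : Type) [Group G], Prop}

section

variable {G V : Type} {T : SimpleGraph V} [Group G] [MulAction G V]

/-- finitely many edges -/
theorem fin_hom (hC : ClosedE C)
    (hE : ∀ u v : V, T.Adj u v → ∃ (P : Type) (_ : Group P) (f : G →* P), C P ∧
      ∀ g : G, g • u = u → g • v = v → f g = 1 → g = 1) (Φ : Finset (V × V))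
    (hΦ : ∀ e ∈ Φ, T.Adj e.1 e.2) :
    ∃ (P : Type) (_ : Group P) (f : G →* P), C P ∧
      ∀ e ∈ Φ, ∀ g : G, g • e.1 = e.1 → g • e.2 = e.2 → f g = 1 → g = 1 := by
  classical
  induction Φ using Finset.induction_on with
  | empty =>
    exact ⟨Multiplicative ℤ, inferInstance, 1, hC.base.int, fun e he => absurd he (by simp)⟩
  | insert a Φ _ ih =>
    obtain ⟨P, _, f, hP, hf⟩ := ih fun e he => hΦ e (Finset.mem_insert_of_mem he)
    obtain ⟨Q, _, f', hQ, hf'⟩ := hE a.1 a.2 (hΦ a (Finset.mem_insert_self _ _))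
    refine ⟨P × Q, inferInstance, f.prod f', hC.base.prod _ _ hP hQ, fun e he g hg hg' h1 => ?_⟩
    have h2 : f g = 1 := congrArg Prod.fst h1
    have h3 : f' g = 1 := congrArg Prod.snd h1
    rcases Finset.mem_insert.1 he with rfl | he
    · exact hf' g hg hg' h3
    · exact hf e he g hg hg' h2

/-- the graph of the translates of finitely many edges -/
def tg (T : SimpleGraph V) (H : Subgroup G) (Φ : Set (V × V)) : SimpleGraph V where
  Adj u v := T.Adj u v ∧ ∃ h ∈ H, (h • u, h • v) ∈ Φ ∨ (h • v, h • u) ∈ Φ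
  symm := ⟨fun u v ⟨h1, h, hh, h2⟩ => ⟨h1.symm, h, hh, h2.symm⟩⟩
  loopless := ⟨fun v h => h.1.ne rfl⟩

theorem tg_smul (hact : ∀ (g : G) (u v : V), T.Adj u v → T.Adj (g • u) (g • v)) (H : Subgroup G)
    (Φ : Set (V × V)) {a : G} (ha : a ∈ H) {u v : V} (h : (tg T H Φ).Adj u v) :
    (tg T H Φ).Adj (a • u) (a • v) := by
  obtain ⟨h1, h, hh, h2⟩ := h
  refine ⟨hact a _ _ h1, h * a⁻¹, H.mul_mem hh (H.inv_mem ha), ?_⟩
  rw [mul_smul, mul_smul, inv_smul_smul, inv_smul_smul]
  exact h2

theorem tg_reach (hact : ∀ (g : G) (u v : V), T.Adj u v → T.Adj (g • u) (g • v)) (H : Subgroup G)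
    (Φ : Set (V × V)) {a : G} (ha : a ∈ H) {u v : V} (h : (tg T H Φ).Reachable u v) :
    (tg T H Φ).Reachable (a • u) (a • v) := by
  obtain ⟨p⟩ := h
  induction p with
  | nil => exact Reachable.refl _
  | cons hadj p ih => exact (tg_smul hact H Φ ha hadj).reachable.trans ih

theorem tg_walk (H : Subgroup G) (Φ : Set (V × V)) {u v : V} (p : T.Walk u v)
    (hp : ∀ d ∈ p.darts, d.toProd ∈ Φ) : (tg T H Φ).Reachable u v := by
  induction p with
  | nil => exact Reachable.refl _
  | @cons u w v hadj p ih =>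
    have h1 : (tg T H Φ).Adj u w := by
      refine ⟨hadj, 1, H.one_mem, Or.inl ?_⟩
      rw [one_smul, one_smul]
      exact hp ⟨(u, w), hadj⟩ (by simp)
    exact h1.reachable.trans (ih fun d hd => hp d (by simp [hd]))

/-- **one homomorphism for each edge** -/
theorem edges (hC : ClosedE C) (hT : T.IsTree)
    (hact : ∀ (g : G) (u v : V), T.Adj u v → T.Adj (g • u) (g • v))
    (hV : ∀ v : V, C ↥(MulAction.stabilizer G v))
    (hE : ∀ u v : V, T.Adj u v → ∃ (P : Type) (_ : Group P) (f : G →* P), C P ∧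
      ∀ g : G, g • u = u → g • v = v → f g = 1 → g = 1) : C G := by
  classical
  obtain ⟨o⟩ := hT.connected.nonempty
  refine Pool.Agent.Y430.SS.of_directed hC.base G (Finset G) (fun i j => ?_)
    (fun s => Subgroup.closure (s : Set G))
    (fun s t h => Subgroup.closure_mono (by exact_mod_cast h))
    (fun g => ⟨{g}, Subgroup.subset_closure (by simp)⟩) (fun S => ?_)
  · exact ⟨i ∪ j, Finset.subset_union_left, Finset.subset_union_right⟩
  obtain ⟨H, hH⟩ : ∃ H : Subgroup G, H = Subgroup.closure (S : Set G) := ⟨_, rfl⟩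
  show C (Subgroup.closure (S : Set G))
  rw [← hH]
  let w : ∀ g : G, T.Walk o (g • o) := fun g => (hT.connected.preconnected o (g • o)).some
  obtain ⟨Φ, hΦ⟩ : ∃ Φ : Finset (V × V),
      Φ = S.biUnion fun s => ((w s).darts.map fun d => d.toProd).toFinset := ⟨_, rfl⟩
  have hΦT : ∀ e ∈ Φ, T.Adj e.1 e.2 := by
    intro e he
    rw [hΦ, Finset.mem_biUnion] at he
    obtain ⟨s, -, he⟩ := he
    rw [List.mem_toFinset, List.mem_map] at he
    obtain ⟨d, -, rfl⟩ := he
    exact d.adj
  obtain ⟨P, _, f, hP, hf⟩ := fin_hom hC hE Φ hΦT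
  obtain ⟨T', hT'⟩ : ∃ T' : SimpleGraph V, T' = tg T H (Φ : Set (V × V)) := ⟨_, rfl⟩
  have hle : T' ≤ T := by
    rw [hT']
    intro u v h
    exact h.1
  have hreach : ∀ g ∈ H, T'.Reachable o (g • o) := by
    intro g hg
    rw [hH] at hg
    induction hg using Subgroup.closure_induction with
    | mem s hs =>
      rw [hT']
      refine tg_walk H _ (w s) fun d hd => ?_
      rw [hΦ]
      simp only [Finset.coe_biUnion, Set.mem_iUnion, Finset.mem_coe, List.mem_toFinset, List.mem_map]
      exact ⟨s, hs, d, hd, rfl⟩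
    | one =>
      rw [one_smul]
    | mul a b ha hb iha ihb =>
      rw [mul_smul]
      refine iha.trans ?_
      rw [hT'] at ihb ⊢
      exact tg_reach hact H _ (hH ▸ ha) ihb
    | inv a ha iha =>
      have h1 : T'.Reachable (a⁻¹ • o) (a⁻¹ • a • o) := by
        rw [hT'] at iha ⊢
        exact tg_reach hact H _ (H.inv_mem (hH ▸ ha)) iha
      rw [inv_smul_smul] at h1
      exact h1.symm
  have hTs : ∀ a ∈ H, ∀ x y : V, T'.Adj x y → T'.Adj (a • x) (a • y) := by
    intro a ha x y h
    rw [hT'] at h ⊢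
    exact tg_smul hact H _ ha h
  have hTa : ∀ x y : V, T'.Adj x y → ∃ h ∈ H, (h • x, h • y) ∈ Φ ∨ (h • y, h • x) ∈ Φ := by
    intro x y h
    rw [hT'] at h
    exact h.2
  obtain ⟨c, hc⟩ : ∃ c : T'.ConnectedComponent, c = T'.connectedComponentMk o := ⟨_, rfl⟩
  have hcm : ∀ x, x ∈ c.supp ↔ T'.Reachable o x := by
    intro x
    rw [hc, ConnectedComponent.mem_supp_iff, ConnectedComponent.eq]
    exact ⟨fun h => h.symm, fun h => h.symm⟩
  have hcs : ∀ (h : H) (x : V), x ∈ c.supp → (h : G) • x ∈ c.supp := by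
    intro h x hx
    rw [hcm] at hx ⊢
    refine (hreach h h.2).trans ?_
    rw [hT'] at hx ⊢
    exact tg_reach hact H _ h.2 hx
  let _ : MulAction H c.supp :=
    { smul := fun h x => ⟨(h : G) • (x : V), hcs h x x.2⟩
      one_smul := fun x => Subtype.ext (one_smul G (x : V))
      mul_smul := fun h k x => Subtype.ext (mul_smul (h : G) (k : G) (x : V)) }
  have hsm : ∀ (h : H) (x : c.supp), ((h • x : c.supp) : V) = (h : G) • (x : V) := fun _ _ => rfl
  refine crit (G := H) (V := c.supp) (T := c.toSimpleGraph) hC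
    ((hT.isAcyclic.anti hle).isTree_connectedComponent c) ?_ (f.comp H.subtype) hP ?_ ?_
  · intro h x y hxy
    have h1 : T'.Adj (x : V) (y : V) := hxy
    exact hTs h h.2 _ _ h1
  · intro x y hxy g hgx hgy hfg
    have h1 : T'.Adj (x : V) (y : V) := hxy
    obtain ⟨k, hk, h2⟩ := hTa _ _ h1
    have hgx' : (g : G) • (x : V) = x := congrArg Subtype.val hgx
    have hgy' : (g : G) • (y : V) = y := congrArg Subtype.val hgy
    have h3 : (k * (g : G) * k⁻¹) • k • (x : V) = k • (x : V) := by
      rw [mul_smul, mul_smul, inv_smul_smul, hgx']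
    have h4 : (k * (g : G) * k⁻¹) • k • (y : V) = k • (y : V) := by
      rw [mul_smul, mul_smul, inv_smul_smul, hgy']
    have h5 : f (k * (g : G) * k⁻¹) = 1 := by
      have h6 : f (g : G) = 1 := hfg
      rw [map_mul, map_mul, h6, mul_one, ← map_mul, mul_inv_cancel, map_one]
    have h6 : k * (g : G) * k⁻¹ = 1 := by
      rcases h2 with h2 | h2
      · exact hf _ h2 _ h3 h4 h5
      · exact hf _ h2 _ h4 h3 h5
    apply Subtype.ext
    show (g : G) = 1
    have h7 : (g : G) = k⁻¹ * (k * (g : G) * k⁻¹) * k := by group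
    rw [h7, h6]
    group
  · intro x g hg
    have hg' : (g : G) • (x : V) = x := congrArg Subtype.val hg
    refine hC.base.of_injective _ _ (((H.subtype).comp (Subgroup.subtype
      ((MulAction.stabilizer H x ⊓ (f.comp H.subtype).ker) ⊔ Subgroup.zpowers g))).codRestrict
      (MulAction.stabilizer G (x : V)) ?_) ?_ (hV x)
    · rintro ⟨y, hy⟩
      have h1 : (MulAction.stabilizer H x ⊓ (f.comp H.subtype).ker) ⊔ Subgroup.zpowers g ≤
          (MulAction.stabilizer G (x : V)).comap H.subtype := by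
        refine sup_le ?_ ?_
        · rintro z ⟨hz, -⟩
          exact congrArg Subtype.val hz
        · rw [Subgroup.zpowers_le]
          exact hg'
      exact h1 hy
    · intro a b hab
      have h1 := congrArg Subtype.val hab
      exact Subtype.ext (Subtype.ext h1)

end

/-- **relative version** -/
theorem relative (hC : ClosedE C) {G V : Type} [Group G] [MulAction G V] {T : SimpleGraph V}
    (hT : T.IsTree) (hact : ∀ (g : G) (u v : V), T.Adj u v → T.Adj (g • u) (g • v))
    (K : Subgroup G) [K.Normal] (hQ : C (G ⧸ K))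
    (hV : ∀ (g : G) (v : V), C ↥((K ⊔ Subgroup.zpowers g) ⊓ MulAction.stabilizer G v))
    (hE : ∀ (g : G) (u v : V), T.Adj u v →
      ∃ (P : Type) (_ : Group P) (f : ↥(K ⊔ Subgroup.zpowers g) →* P), C P ∧
        ∀ x : ↥(K ⊔ Subgroup.zpowers g), (x : G) • u = u → (x : G) • v = v → f x = 1 → x = 1) :
    C G := by
  have key : ∀ g : G, C ↥(K ⊔ Subgroup.zpowers g) := by
    intro g
    refine edges (G := ↥(K ⊔ Subgroup.zpowers g)) hC hT (fun x u v h => hact x u v h) ?_ ?_
    · intro v
      refine hC.base.of_injective _ _ (((K ⊔ Subgroup.zpowers g).subtype.comp (Subgroup.subtype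
        (MulAction.stabilizer ↥(K ⊔ Subgroup.zpowers g) v))).codRestrict
        ((K ⊔ Subgroup.zpowers g) ⊓ MulAction.stabilizer G v) ?_) ?_ (hV g v)
      · rintro ⟨y, hy⟩
        exact ⟨y.2, hy⟩
      · intro a b hab
        have h1 := congrArg Subtype.val hab
        exact Subtype.ext (Subtype.ext h1)
    · intro u v huv
      exact hE g u v huv
  refine Pool.Agent.Y529.FJ.t_ext C hC G K ?_ hQ fun g _ => key g
  exact Pool.Agent.R941.FJ.C_le hC.base le_sup_left (key 1)

end Pool.Agent.N509.TK
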