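import Pool.Agent.N509.TK.Ga
import Pool.Agent.N509.TK.Loc

/-!
# Edge groups which embed in the first homology of the vertex groups
-/

set_option autoImplicit false

namespace Pool.Agent.N509.TK

open SimpleGraph
open scoped commutatorElement
open Pool.Agent.Y110.FJ
open Pool.Agent.R941.FJ (C_equiv C_le C_cyc mem_sup_normal)

variable {C : ∀ (G : Type) [Group G], Prop}

section h1

variable {G V : Type} {T : SimpleGraph V} [Group G] [MulAction G V]

theorem comm_conj (L : Subgroup G) [L.Normal] (g : G) (v : V) {x : G}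
    (hx : x ∈ ⁅Sb L v, Sb L v⁆) : g * x * g⁻¹ ∈ ⁅Sb L (g • v), Sb L (g • v)⁆ := by
  have h1 : (Sb L v).map (MulAut.conj g).toMonoidHom ≤ Sb L (g • v) := by
    rintro _ ⟨y, hy, rfl⟩
    exact Sb_conj L g v hy
  have h2 : (⁅Sb L v, Sb L v⁆).map (MulAut.conj g).toMonoidHom ≤ ⁅Sb L (g • v), Sb L (g • v)⁆ := by
    rw [Subgroup.map_commutator]
    exact Subgroup.commutator_mono h1 h1
  exact h2 ⟨x, hx, rfl⟩

/-- the first homology of the vertex groups embeds in that of the group which they generate -/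
theorem h1 (hT : T.IsTree) (hact : ∀ (g : G) (u v : V), T.Adj u v → T.Adj (g • u) (g • v))
    (L : Subgroup G) [L.Normal] (hE : EH T (Sb (V := V) L)) (v : V) {x : G} (hx : x ∈ Sb L v)
    (h : x ∈ ⁅(⨆ v : V, Sb L v), (⨆ v : V, Sb L v)⁆) : x ∈ ⁅Sb L v, Sb L v⁆ := by
  have hn : (⨆ v : V, Sb L v).Normal := Sb_normal L
  have hcn : (⁅(⨆ v : V, Sb L v), (⨆ v : V, Sb L v)⁆).Normal := inferInstance
  obtain ⟨S, hS⟩ := Tv.exists (R := Sb (V := V) L) hT
  have hq := Tq.of_Sb hT hact L hS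
  obtain ⟨a, ha, o, ho, rfl⟩ := hq.cover v
  by_contra hcon
  have hx' : a⁻¹ * x * a ∈ Sb L o := by
    have := Sb_conj L a⁻¹ _ hx
    rwa [inv_smul_smul, inv_inv] at this
  have hcon' : a⁻¹ * x * a ∉ ⁅Sb L o, Sb L o⁆ := by
    intro h2
    apply hcon
    have h3 := comm_conj L a o h2
    have h4 : a * (a⁻¹ * x * a) * a⁻¹ = x := by group
    rwa [h4] at h3
  obtain ⟨f0, hf0, hfx⟩ := sep_char (Sb L o) hx' hcon'
  obtain ⟨χ, hχ, hχo, hc⟩ := exists_fam hT hE o f0 hf0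
  obtain ⟨r, s, hd⟩ := Gd.ex hT hact L χ hχ hc hq
  obtain ⟨φ, hφ, hφv⟩ := hd.main hT hact
  have hro : r o = o := hq.trans (s o) (hd.sH o) _ (hd.rS o) o ho (hd.eq o).symm
  have hso : s o ∈ Sb L o := by
    have h2 := hd.eq o
    rw [hro] at h2
    exact mem_Sb.2 ⟨h2.symm, Sb_le L (hd.sH o)⟩
  have h2 := hφv o _ hx'
  rw [hro, hχo, hf0 _ (mul_mem (inv_mem hso) hx') _ hso, hf0 _ (inv_mem hso) _ hx', hf0.inv hso,
    mul_comm, mul_inv_cancel_left] at h2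
  have h3 : a⁻¹ * x * a ∈ ⁅(⨆ v : V, Sb L v), (⨆ v : V, Sb L v)⁆ := by
    have := hcn.conj_mem x h a⁻¹
    rwa [inv_inv] at this
  rw [hφ.comm_eq_one h3] at h2
  exact hfx h2.symm

theorem metab {K : Type} [Group K] (A : Subgroup K) (hA : ∀ x ∈ A, ∀ y ∈ A, x * y = y * x)
    (hK : ∀ x y : K, ⁅x, y⁆ ∈ A) : derivedSeries K 2 = ⊥ := by
  have h1 : derivedSeries K 1 ≤ A := by
    rw [derivedSeries_one, commutator_def, Subgroup.commutator_le]
    exact fun x _ y _ => hK x y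
  rw [derivedSeries_succ, eq_bot_iff, Subgroup.commutator_le]
  intro x hx y hy
  rw [Subgroup.mem_bot, commutatorElement_eq_one_iff_mul_comm]
  exact hA x (h1 hx) y (h1 hy)

/-- the target -/
theorem target (hC : ClosedE C) (hM : ∀ (G : Type) [Group G], derivedSeries G 2 = ⊥ → C G)
    (hT : T.IsTree) (hact : ∀ (g : G) (u v : V), T.Adj u v → T.Adj (g • u) (g • v))
    (L : Subgroup G) [L.Normal] (hQ : C (G ⧸ L)) (D : Subgroup G) [D.Normal]
    (hD : D = ⁅(⨆ v : V, Sb L v), (⨆ v : V, Sb L v)⁆) : C (G ⧸ D) := by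
  have hn : (⨆ v : V, Sb L v).Normal := Sb_normal L
  obtain ⟨H, hH⟩ : ∃ H : Subgroup G, H = ⨆ v : V, Sb L v := ⟨_, rfl⟩
  rw [← hH] at hn hD
  have hDH : D ≤ H := by
    rw [hD]
    exact Subgroup.commutator_le_self H
  obtain ⟨S, hS⟩ := Tv.exists (R := Sb (V := V) L) hT
  have hq := Tq.of_Sb hT hact L hS
  rw [← hH] at hq
  have hGH : C (G ⧸ H) := by
    refine quot_tree hC hT hact hq (QuotientGroup.mk' L) hQ ?_ ?_
    · intro h hh
      refine (QuotientGroup.eq_one_iff h).2 (Sb_le (V := V) L ?_)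
      rwa [← hH]
    · intro v g hg hgL
      rw [hH]
      exact le_iSup (Sb L) v (mem_Sb.2 ⟨hg, (QuotientGroup.eq_one_iff g).1 hgL⟩)
  have hNn : (H.map (QuotientGroup.mk' D)).Normal :=
    Subgroup.Normal.map inferInstance _ (QuotientGroup.mk'_surjective _)
  obtain ⟨N, hN⟩ : ∃ N : Subgroup (G ⧸ D), N = H.map (QuotientGroup.mk' D) := ⟨_, rfl⟩
  rw [← hN] at hNn
  have hQN : C ((G ⧸ D) ⧸ N) := by
    subst hN
    exact C_equiv hC.base (QuotientGroup.quotientQuotientEquivQuotient D H hDH) hGH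
  have hab : ∀ x ∈ N, ∀ y ∈ N, x * y = y * x := by
    rw [hN]
    rintro _ ⟨a, ha, rfl⟩ _ ⟨b, hb, rfl⟩
    rw [← map_mul, ← map_mul]
    refine QuotientGroup.eq.2 ?_
    have h1 : (a * b)⁻¹ * (b * a) = ⁅b⁻¹, a⁻¹⁆ := by
      rw [commutatorElement_def]
      group
    rw [h1, hD]
    exact Subgroup.commutator_mem_commutator (H.inv_mem hb) (H.inv_mem ha)
  have key : ∀ g : G ⧸ D, C ↥(N ⊔ Subgroup.zpowers g) := by
    intro g
    refine hM _ (metab (N.subgroupOf (N ⊔ Subgroup.zpowers g)) ?_ ?_)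
    · intro x hx y hy
      exact Subtype.ext (hab x hx y hy)
    · rintro ⟨x, hx⟩ ⟨y, hy⟩
      obtain ⟨a, ha, _, ⟨i, rfl⟩, rfl⟩ := mem_sup_normal.1 hx
      obtain ⟨b, hb, _, ⟨j, rfl⟩, rfl⟩ := mem_sup_normal.1 hy
      rw [Subgroup.mem_subgroupOf]
      show ⁅a * g ^ i, b * g ^ j⁆ ∈ N
      rw [← QuotientGroup.eq_one_iff]
      have h1 : ((⁅a * g ^ i, b * g ^ j⁆ : G ⧸ D) : (G ⧸ D) ⧸ N) =
          ⁅((a * g ^ i : G ⧸ D) : (G ⧸ D) ⧸ N), ((b * g ^ j : G ⧸ D) : (G ⧸ D) ⧸ N)⁆ := rfl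
      rw [h1, QuotientGroup.mk_mul, QuotientGroup.mk_mul, (QuotientGroup.eq_one_iff a).2 ha,
        (QuotientGroup.eq_one_iff b).2 hb, one_mul, one_mul, commutatorElement_eq_one_iff_mul_comm]
      show ((g : (G ⧸ D) ⧸ N)) ^ i * ((g : (G ⧸ D) ⧸ N)) ^ j = _
      rw [← zpow_add, add_comm, zpow_add]
      rfl
  refine Pool.Agent.Y529.FJ.t_ext C hC _ N ?_ hQN fun g _ => key g
  exact C_le hC.base le_sup_left (key 1)

/-- **edge groups which embed in the first homology of the vertex groups**, with one homomorphism -/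
theorem hcrit (hC : ClosedE C) (hM : ∀ (G : Type) [Group G], derivedSeries G 2 = ⊥ → C G)
    (hT : T.IsTree) (hact : ∀ (g : G) (u v : V), T.Adj u v → T.Adj (g • u) (g • v))
    (L : Subgroup G) [L.Normal] (hQ : C (G ⧸ L)) (hE : EH T (Sb (V := V) L))
    (hV : ∀ (v : V) (g : G), g • v = v → C ↥(Sb L v ⊔ Subgroup.zpowers g)) : C G := by
  have hn : (⨆ v : V, Sb L v).Normal := Sb_normal L
  obtain ⟨D, hD⟩ : ∃ D : Subgroup G, D = ⁅(⨆ v : V, Sb L v), (⨆ v : V, Sb L v)⁆ := ⟨_, rfl⟩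
  have hDn : D.Normal := by
    rw [hD]
    infer_instance
  have hDL : D ≤ L := by
    rw [hD]
    exact (Subgroup.commutator_le_self _).trans (Sb_le L)
  have hP := target hC hM hT hact L hQ D hD
  refine crit hC hT hact (QuotientGroup.mk' D) hP ?_ ?_
  · intro u v huv g hgu hgv hg
    have h2 : g ∈ D := (QuotientGroup.eq_one_iff g).1 hg
    have h3 : g ∈ Sb L u := mem_Sb.2 ⟨hgu, hDL h2⟩
    have h4 : g ∈ Sb L v := mem_Sb.2 ⟨hgv, hDL h2⟩
    exact hE u v huv g h3 h4 (h1 hT hact L hE u h3 (hD ▸ h2))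
  · intro v g hg
    refine C_le hC.base (sup_le_sup_right ?_ _) (hV v g hg)
    rintro x ⟨hx1, hx2⟩
    exact mem_Sb.2 ⟨hx1, hDL ((QuotientGroup.eq_one_iff x).1 hx2)⟩

end h1

end Pool.Agent.N509.TK
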