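import Pool.Agent.N509.TK.Tq

/-!
# The group generated by the stabilizers

If `R v` is the stabilizer of `v` in `L`, then the quotient of the tree by the group `H` generated by the
`R v` is a tree: there is a subtree which is a transversal for `H`.
-/

set_option autoImplicit false

namespace Pool.Agent.N509.TK

open SimpleGraph
open Pool.Agent.N24.TR (gam gam_map gam_mul gam_self gam_adj gam_eq sy sy_mul wd wp_wd wd_nil XX kk
  kk_eq Rl)

section hol

variable {G V M : Type} {T : SimpleGraph V} [Group G] [MulAction G V] [Group M]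

/-- invariant labels have trivial holonomy -/
theorem hol (hT : T.IsTree) (hact : ∀ (g : G) (u v : V), T.Adj u v → T.Adj (g • u) (g • v))
    (e : V → V → M) (he : ∀ u v, T.Adj u v → e u v * e v u = 1) (R : V → Subgroup G)
    (hfix : ∀ v, ∀ r ∈ R v, r • v = v)
    (hinv : ∀ h ∈ ⨆ v, R v, ∀ u v, e (h • u) (h • v) = e u v) :
    ∀ h ∈ ⨆ v, R v, ∀ u, gam hT e u (h • u) = 1 := by
  have hg : ∀ h ∈ ⨆ v, R v, ∀ u v, gam hT e (h • u) (h • v) = gam hT e u v := fun h hh u v =>
    gam_map hT hact e he h (MonoidHom.id _) (fun u v => (hinv h hh u v).symm) u v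
  intro h hh
  induction hh using Subgroup.iSup_induction' with
  | hp v r hr =>
    intro u
    have h1 := hg r (le_iSup R v hr) v u
    rw [hfix v r hr] at h1
    rw [← gam_mul hT e he u v (r • u), h1, gam_mul hT e he, gam_self hT e he]
  | h1 =>
    intro u
    rw [one_smul, gam_self hT e he]
  | hmul a b ha hb iha ihb =>
    intro u
    rw [mul_smul, ← gam_mul hT e he u (a • u), iha u, hg a ha, ihb u, one_mul]

end hol

section red

variable {V X : Type} {T : SimpleGraph V}

theorem wd_reduced' (k : V → V → X) (S : Set V)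
    (hinv : ∀ u ∈ S, ∀ v ∈ S, T.Adj u v → k u v ≠ k v u)
    (hlc : ∀ v ∈ S, ∀ u ∈ S, ∀ w ∈ S, T.Adj v u → T.Adj v w → k v u = k v w → u = w)
    {u v : V} (p : T.Walk u v) (hp : p.IsPath) (hs : ∀ x ∈ p.support, x ∈ S) :
    FreeGroup.IsReduced (wd k p) := by
  induction p with
  | nil => exact FreeGroup.IsReduced.nil
  | @cons u v w h p ih =>
    have hp' : p.IsPath := hp.of_cons
    have ih' := ih hp' (fun x hx => hs x (by simp [hx]))
    show FreeGroup.IsReduced ((k u v, true) :: (k v u, false) :: wd k p)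
    rw [FreeGroup.isReduced_cons_cons]
    refine ⟨fun h1 => absurd h1 (hinv u (hs u (by simp)) v (hs v (by simp)) h), ?_⟩
    cases p with
    | nil => exact FreeGroup.IsReduced.singleton
    | @cons _ z _ h' p' =>
      show FreeGroup.IsReduced ((k v u, false) :: (k v z, true) :: (k z v, false) :: wd k p')
      rw [FreeGroup.isReduced_cons_cons]
      refine ⟨fun h1 => ?_, ih'⟩
      exfalso
      have h2 : u = z := hlc v (hs v (by simp)) u (hs u (by simp)) z (hs z (by simp)) h.symm h' h1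
      subst h2
      simp [Walk.cons_isPath_iff] at hp

end red

section main

variable {G V : Type} {T : SimpleGraph V} [Group G] [MulAction G V] {S : Set V}

/-- the stabilizer of `v` in `L` -/
def Sb (L : Subgroup G) (v : V) : Subgroup G := MulAction.stabilizer G v ⊓ L

theorem mem_Sb {L : Subgroup G} {v : V} {x : G} : x ∈ Sb L v ↔ x • v = v ∧ x ∈ L := Iff.rfl

theorem Sb_le (L : Subgroup G) : (⨆ v : V, Sb L v) ≤ L := iSup_le fun _ _ hx => hx.2

theorem Sb_conj (L : Subgroup G) [hL : L.Normal] (g : G) (v : V) {x : G} (hx : x ∈ Sb L v) :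
    g * x * g⁻¹ ∈ Sb L (g • v) :=
  mem_Sb.2 ⟨by rw [mul_smul, inv_smul_smul, mul_smul, hx.1], hL.conj_mem x hx.2 g⟩

theorem Sb_normal (L : Subgroup G) [hL : L.Normal] : (⨆ v : V, Sb L v).Normal := by
  refine ⟨fun x hx g => ?_⟩
  have h1 : (⨆ v : V, Sb L v) ≤ (⨆ v : V, Sb L v).comap (MulAut.conj g).toMonoidHom :=
    iSup_le fun v x hx => le_iSup (Sb L) (g • v) (Sb_conj L g v hx)
  exact h1 hx

theorem noinv (hT : T.IsTree) (hact : ∀ (g : G) (u v : V), T.Adj u v → T.Adj (g • u) (g • v))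
    (L : Subgroup G) {n : G} (hn : n ∈ ⨆ v : V, Sb L v) (u : V) : ¬ T.Adj u (n • u) := by
  intro h
  have hp : ∀ u v : V, T.Adj u v → (fun _ _ : V => Multiplicative.ofAdd (1 : ZMod 2)) u v *
      (fun _ _ : V => Multiplicative.ofAdd (1 : ZMod 2)) v u = 1 := by
    intro u v _
    show Multiplicative.ofAdd (1 : ZMod 2) * Multiplicative.ofAdd (1 : ZMod 2) = 1
    decide
  have h1 := hol hT hact (fun _ _ => Multiplicative.ofAdd (1 : ZMod 2)) hp (Sb L)
    (fun v r hr => hr.1) (fun _ _ _ _ => rfl) n hn u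
  rw [gam_adj hT _ hp h] at h1
  exact absurd h1 (by decide)

/-- transversals for the group generated by the stabilizers -/
theorem Tq.of_Sb (hT : T.IsTree)
    (hact : ∀ (g : G) (u v : V), T.Adj u v → T.Adj (g • u) (g • v)) (L : Subgroup G)
    (hS : Tv T (Sb L) S) : Tq T (⨆ v : V, Sb L v) S where
  ne := hS.ne
  cvx := hS.cvx
  cover v := by
    obtain ⟨h, hh, s, hs, heq⟩ := hS.cover' hT hact v
    have h1 : (⨆ i : Ix (Sb L) S, Sb L i.1) ≤ ⨆ v : V, Sb L v := iSup_le fun i => le_iSup (Sb L) i.1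
    exact ⟨h, h1 hh, s, hs, heq⟩
  trans h hh s hs s' hs' heq := by
    classical
    obtain ⟨H, hH⟩ : ∃ H : Subgroup G, H = ⨆ v : V, Sb L v := ⟨_, rfl⟩
    rw [← hH] at hh
    have hinv : ∀ a ∈ H, ∀ u v : V, sy (kk H) (a • u) (a • v) = sy (kk H) u v := by
      intro a ha u v
      have h1 : ∀ u v : V, kk H (a • u) (a • v) = kk H u v := fun u v =>
        Quotient.sound ⟨a⁻¹, H.inv_mem ha, by
          show (a⁻¹ • a • u, a⁻¹ • a • v) = (u, v)
          rw [inv_smul_smul, inv_smul_smul]⟩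
      unfold sy
      rw [h1, h1]
    have h1 : gam hT (sy (kk H)) s (h • s) = 1 := by
      refine hol hT hact (sy (kk H)) (fun u v _ => sy_mul _ u v) (Sb L) (fun v r hr => hr.1) ?_ h
        (hH ▸ hh) s
      intro a ha
      exact hinv a (hH ▸ ha)
    rw [heq] at h1
    obtain ⟨q, hq⟩ := hS.cvx s hs s' hs'
    have hred : FreeGroup.IsReduced (wd (kk H) q.bypass) := by
      refine wd_reduced' (kk H) S ?_ ?_ q.bypass q.bypass_isPath
        (fun z hz => hq z (q.support_bypass_subset_support hz))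
      · intro u _ v _ huv h2
        obtain ⟨n, hn, h3, -⟩ := kk_eq H h2
        exact noinv hT hact L (hH ▸ hn) u (h3 ▸ huv)
      · intro v hv u hu w hw h3 h4 h5
        obtain ⟨n, hn, h6, h7⟩ := kk_eq H h5
        have h8 : n ∈ ⨆ v : V, Sb L v := hH ▸ hn
        exact hS.lc v hv u hu w hw h3 h4 n (mem_Sb.2 ⟨h6, Sb_le L h8⟩) h7
    rw [gam_eq hT _ (fun u v _ => sy_mul _ u v) q.bypass, wp_wd] at h1
    have h2 : wd (kk H) q.bypass = [] := by
      have h3 : (FreeGroup.mk (wd (kk H) q.bypass)).toWord = wd (kk H) q.bypass := by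
        rw [FreeGroup.toWord_mk]
        exact hred.reduce_eq
      rw [← h3, h1]
      rfl
    exact wd_nil (kk H) q.bypass h2
  max s hs w h := by
    obtain ⟨u, hu, h1, r, hr, h2⟩ := hS.max s hs w h
    exact ⟨u, hu, h1, r, le_iSup (Sb L) s hr, hr.1, h2⟩

end main

end Pool.Agent.N509.TK
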