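import Pool.Agent.N509.TK.Om

/-!
# Edge groups of rank one
-/

set_option autoImplicit false

namespace Pool.Agent.N509.TK

open SimpleGraph
open scoped commutatorElement
open Pool.Agent.Y110.FJ
open Pool.Agent.R941.FJ (C_equiv C_le C_cyc mem_sup_normal)

variable {C : ∀ (G : Type) [Group G], Prop}

theorem C_comm (hM : ∀ (G : Type) [Group G], derivedSeries G 2 = ⊥ → C G) {A : Type} [Group A]
    (h : ∀ x y : A, x * y = y * x) : C A := by
  refine hM A (metab ⊥ (fun x _ y _ => h x y) fun x y => ?_)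
  rw [Subgroup.mem_bot, commutatorElement_eq_one_iff_mul_comm]
  exact h x y

section rk

variable {G V : Type} [Group G] [MulAction G V] {T : SimpleGraph V}

/-- the stabilizer of an edge is torsion free of rank one -/
structure Rk1 (G : Type) {V : Type} [Group G] [MulAction G V] (u v : V) : Prop where
  tf : ∀ x : G, x • u = u → x • v = v → x ≠ 1 → ∀ n : ℤ, n ≠ 0 → x ^ n ≠ 1
  rk : ∀ x y : G, x • u = u → x • v = v → y • u = u → y • v = v → x ≠ 1 → y ≠ 1 →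
    ∃ a b : ℤ, a ≠ 0 ∧ b ≠ 0 ∧ x ^ a = y ^ b

/-- the relation for edge groups of rank one -/
def r1 (G : Type) {V : Type} [Group G] [MulAction G V] (w a b : V) : Prop :=
  a = b ∨ ∃ x : G, x ≠ 1 ∧ x • w = w ∧ x • a = a ∧ x • b = b

theorem zpow_fix {x : G} {v : V} (h : x • v = v) (n : ℤ) : x ^ n • v = v := by
  have h1 : x ∈ MulAction.stabilizer G v := h
  exact (MulAction.stabilizer G v).zpow_mem h1 n

theorem r1_LR (hact : ∀ (g : G) (u v : V), T.Adj u v → T.Adj (g • u) (g • v))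
    (hE : ∀ u v : V, T.Adj u v → Rk1 G u v) : LR G T (r1 G) := by
  refine ⟨fun w a _ => Or.inl rfl, ?_, ?_, ?_⟩
  · rintro w a b _ _ (rfl | ⟨x, h1, h2, h3, h4⟩)
    · exact Or.inl rfl
    · exact Or.inr ⟨x, h1, h2, h4, h3⟩
  · rintro w a b c ha hb hc (rfl | ⟨x, h1, h2, h3, h4⟩) h
    · exact h
    · rcases h with rfl | ⟨y, k1, k2, k3, k4⟩
      · exact Or.inr ⟨x, h1, h2, h3, h4⟩
      · obtain ⟨m, n, hm, hn, hmn⟩ := (hE w b hb).rk x y h2 h4 k2 k3 h1 k1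
        refine Or.inr ⟨x ^ m, (hE w b hb).tf x h2 h4 h1 m hm, zpow_fix h2 m, zpow_fix h3 m, ?_⟩
        rw [hmn]
        exact zpow_fix k4 n
  · rintro g w a b (rfl | ⟨x, h1, h2, h3, h4⟩)
    · exact Or.inl rfl
    · have hc : ∀ v : V, x • v = v → (g * x * g⁻¹) • g • v = g • v := by
        intro v hz
        rw [mul_smul, inv_smul_smul, mul_smul, hz]
      refine Or.inr ⟨g * x * g⁻¹, fun h => h1 ?_, hc _ h2, hc _ h3, hc _ h4⟩
      have : x = g⁻¹ * (g * x * g⁻¹) * g := by group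
      rw [this, h]
      group

/-- commensurable edge stabilizers -/
def Cm (G : Type) {V : Type} [Group G] [MulAction G V] (p q : V × V) : Prop :=
  ((∀ x : G, x • p.1 = p.1 → x • p.2 = p.2 → x = 1) ∧
    (∀ x : G, x • q.1 = q.1 → x • q.2 = q.2 → x = 1)) ∨
  ∃ x : G, x ≠ 1 ∧ x • p.1 = p.1 ∧ x • p.2 = p.2 ∧ x • q.1 = q.1 ∧ x • q.2 = q.2

theorem Cm_refl (p : V × V) : Cm G p p := by
  by_cases h : ∀ x : G, x • p.1 = p.1 → x • p.2 = p.2 → x = 1
  · exact Or.inl ⟨h, h⟩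
  · push Not at h
    obtain ⟨x, h1, h2, h3⟩ := h
    exact Or.inr ⟨x, h3, h1, h2, h1, h2⟩

theorem Cm_gen (hE : ∀ u v : V, T.Adj u v → Rk1 G u v) {p q : Dt T}
    (h : Relation.EqvGen (lk T (r1 G)) p q) : Cm G p.1 q.1 := by
  induction h with
  | rel p q h =>
    rcases h with h | ⟨h1, h2⟩
    · rcases Cm_refl (G := G) p.1 with ⟨h3, _⟩ | ⟨x, h3, h4, h5, _⟩
      · refine Or.inl ⟨h3, fun x hx hx' => h3 x ?_ ?_⟩
        · rw [h] at hx'
          exact hx'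
        · rw [h] at hx
          exact hx
      · refine Or.inr ⟨x, h3, h4, h5, ?_, ?_⟩
        · rw [h]
          exact h5
        · rw [h]
          exact h4
    · rcases h2 with h2 | ⟨x, h3, h4, h5, h6⟩
      · have h3 : p.1 = q.1 := Prod.ext h1 h2
        rw [h3]
        exact Cm_refl _
      · exact Or.inr ⟨x, h3, h4, h5, h1 ▸ h4, h6⟩
  | refl x => exact Cm_refl _
  | symm p q _ ih =>
    rcases ih with ⟨h1, h2⟩ | ⟨x, h1, h2, h3, h4, h5⟩
    · exact Or.inl ⟨h2, h1⟩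
    · exact Or.inr ⟨x, h1, h4, h5, h2, h3⟩
  | trans p q s _ _ ih1 ih2 =>
    rcases ih1 with ⟨h1, h2⟩ | ⟨x, h1, h2, h3, h4, h5⟩
    · rcases ih2 with ⟨_, k2⟩ | ⟨y, k1, k2, k3, k4, k5⟩
      · exact Or.inl ⟨h1, k2⟩
      · exact absurd (h2 y k2 k3) k1
    · rcases ih2 with ⟨k1, k2⟩ | ⟨y, k1, k2, k3, k4, k5⟩
      · exact absurd (k1 x h4 h5) h1
      · obtain ⟨m, n, hm, hn, hmn⟩ := (hE _ _ q.2).rk x y h4 h5 k2 k3 h1 k1
        refine Or.inr ⟨x ^ m, (hE _ _ q.2).tf x h4 h5 h1 m hm, zpow_fix h2 m, zpow_fix h3 m, ?_, ?_⟩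
        · rw [hmn]
          exact zpow_fix k4 n
        · rw [hmn]
          exact zpow_fix k5 n

/-- nontrivial elements of commensurable edge stabilizers have common powers -/
theorem Cm_pow (hE : ∀ u v : V, T.Adj u v → Rk1 G u v) {p q : Dt T} (h : Cm G p.1 q.1) {x y : G}
    (hx : x • p.1.1 = p.1.1) (hx' : x • p.1.2 = p.1.2) (hy : y • q.1.1 = q.1.1)
    (hy' : y • q.1.2 = q.1.2) (hx1 : x ≠ 1) (hy1 : y ≠ 1) :
    ∃ a b : ℤ, a ≠ 0 ∧ b ≠ 0 ∧ x ^ a = y ^ b := by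
  rcases h with ⟨h1, _⟩ | ⟨t, h1, h2, h3, h4, h5⟩
  · exact absurd (h1 x hx hx') hx1
  · obtain ⟨a, b, ha, hb, hab⟩ := (hE _ _ p.2).rk x t hx hx' h2 h3 hx1 h1
    obtain ⟨c, d, hc, hd, hcd⟩ := (hE _ _ q.2).rk t y h4 h5 hy hy' h1 hy1
    refine ⟨a * c, d * b, mul_ne_zero ha hc, mul_ne_zero hd hb, ?_⟩
    rw [zpow_mul, hab, ← zpow_mul, mul_comm b c, zpow_mul, hcd, ← zpow_mul]

/-- the elements of `K` which commute with a power of `z` -/
def LL (K : Subgroup G) (z : G) : Subgroup K where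
  carrier := {g | ∃ n : ℤ, n ≠ 0 ∧ (g : G) * z ^ n = z ^ n * g}
  one_mem' := ⟨1, one_ne_zero, by simp⟩
  mul_mem' := by
    rintro g h ⟨m, hm, h1⟩ ⟨n, hn, h2⟩
    refine ⟨m * n, mul_ne_zero hm hn, ?_⟩
    have h1' : Commute (g : G) (z ^ m) := h1
    have h2' : Commute (h : G) (z ^ n) := h2
    have h3 : Commute (g : G) (z ^ (m * n)) := by
      rw [zpow_mul]
      exact h1'.zpow_right n
    have h4 : Commute (h : G) (z ^ (m * n)) := by
      rw [mul_comm, zpow_mul]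
      exact h2'.zpow_right m
    exact (h3.mul_left h4 : Commute ((g : G) * (h : G)) _)
  inv_mem' := by
    rintro g ⟨m, hm, h1⟩
    refine ⟨m, hm, ?_⟩
    have h1' : Commute (g : G) (z ^ m) := h1
    exact (h1'.inv_left : Commute ((g : G)⁻¹) _)

/-- **edge groups of rank one** -/
theorem rank_one (hC : ClosedE C) (hM : ∀ (G : Type) [Group G], derivedSeries G 2 = ⊥ → C G)
    (hA : Acyl C) (hT : T.IsTree)
    (hact : ∀ (g : G) (u v : V), T.Adj u v → T.Adj (g • u) (g • v))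
    (L0 : Subgroup G) [L0.Normal] (hQ : C (G ⧸ L0))
    (hV : ∀ v : V, C ↥(MulAction.stabilizer G v)) (hE : ∀ u v : V, T.Adj u v → Rk1 G u v)
    (hH : ∀ v u : V, T.Adj v u → ∀ x : G, x • v = v → x • u = u → x ≠ 1 → ∀ S : Subgroup G,
      S ≤ L0 → (∀ g ∈ S, g • v = v ∧ ∃ n : ℤ, n ≠ 0 ∧ g * x ^ n = x ^ n * g) → x ∉ ⁅S, S⁆) :
    C G := by
  have hr := r1_LR hact hE
  refine cyl hC hA hT hact hr ?_ hV fun y K hK => ?_
  · intro w a b _ _ hab g hw hga hgb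
    by_contra hg
    exact hab (Or.inr ⟨g, hg, hw, hga, hgb⟩)
  obtain ⟨⟨⟨v0, a0⟩, h0⟩, hy⟩ := Quotient.exists_rep y
  have h0 : T.Adj v0 a0 := h0
  have hy : cy (r1 G) h0 = y := hy
  obtain ⟨f, hf⟩ : ∃ f : K →* G ⧸ L0, f = (QuotientGroup.mk' L0).comp K.subtype := ⟨_, rfl⟩
  have hfker : ∀ g ∈ f.ker, (g : G) ∈ L0 := by
    intro g hg
    rw [hf] at hg
    exact (QuotientGroup.eq_one_iff (g : G)).1 hg
  have hQK : C (K ⧸ f.ker) :=
    hC.base.of_injective _ _ (QuotientGroup.kerLift f) (QuotientGroup.kerLift_injective _) hQ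
  have hgen : ∀ {v u : V} (h : T.Adj v u), cy (r1 G) h = y → Cm G (v0, a0) (v, u) := fun {v u} h hvu =>
    Cm_gen (p := dt h0) (q := dt h) hE (Quotient.exact (hy.trans hvu.symm))
  by_cases hz : ∃ z : G, z • v0 = v0 ∧ z • a0 = a0 ∧ z ≠ 1
  swap
  · -- trivial edge groups
    refine cyl_sub hC hM hT hact hr y K hK hV f.ker hQK ?_
    intro v u hvu hvy x hxu hx
    have hxv : x • v = v := (Subgroup.commutator_le_self _ hx).1
    rcases hgen hvu hvy with ⟨_, h2⟩ | ⟨t, h1, h2, h3, _⟩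
    · exact Subtype.ext (h2 x hxv hxu)
    · exact absurd ⟨t, h2, h3, h1⟩ hz
  obtain ⟨z, hzv, hza, hz1⟩ := hz
  have hcomm : ∀ g ∈ K, ∃ m k : ℤ, m ≠ 0 ∧ k ≠ 0 ∧ g * z ^ m * g⁻¹ = z ^ k := by
    intro g hg
    have h1 := hK g hg v0 a0 h0 hy
    have h2 := hgen _ h1
    obtain ⟨a, b, ha, hb, hab⟩ := Cm_pow (p := dt h0) (q := dt (hact g v0 a0 h0)) hE h2
      (x := z) (y := g * z * g⁻¹) hzv hza
      (by
        show (g * z * g⁻¹) • g • v0 = g • v0
        rw [mul_smul, inv_smul_smul, mul_smul, hzv])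
      (by
        show (g * z * g⁻¹) • g • a0 = g • a0
        rw [mul_smul, inv_smul_smul, mul_smul, hza]) hz1
      (fun h => hz1 (by
        have : z = g⁻¹ * (g * z * g⁻¹) * g := by group
        rw [this, h]
        group))
    refine ⟨b, a, hb, ha, ?_⟩
    rw [hab, conj_zpow]
  have hLn : (LL K z).Normal := by
    refine ⟨?_⟩
    rintro l ⟨n, hn, hl⟩ g
    obtain ⟨m, k, hm, hk, h1⟩ := hcomm g g.2
    refine ⟨k * n, mul_ne_zero hk hn, ?_⟩
    have hl' : Commute (l : G) (z ^ (m * n)) := by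
      rw [mul_comm, zpow_mul]
      exact (show Commute (l : G) (z ^ n) from hl).zpow_right m
    have h2 : z ^ (k * n) = g * z ^ (m * n) * (g : G)⁻¹ := by
      rw [zpow_mul, ← h1, conj_zpow, ← zpow_mul]
    rw [h2]
    show (g : G) * l * (g : G)⁻¹ * (g * z ^ (m * n) * (g : G)⁻¹) =
      g * z ^ (m * n) * (g : G)⁻¹ * (g * l * (g : G)⁻¹)
    have h3 : (g : G) * l * (g : G)⁻¹ * (g * z ^ (m * n) * (g : G)⁻¹) =
      g * (l * z ^ (m * n)) * (g : G)⁻¹ := by group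
    rw [h3, hl'.eq]
    group
  have hKL : C (K ⧸ LL K z) := by
    refine C_comm hM ?_
    intro p q
    obtain ⟨g, rfl⟩ := QuotientGroup.mk_surjective p
    obtain ⟨h, rfl⟩ := QuotientGroup.mk_surjective q
    obtain ⟨m, k, hm, hk, h1⟩ := hcomm g g.2
    obtain ⟨m', k', hm', hk', h2⟩ := hcomm h h.2
    rw [← QuotientGroup.mk_mul, ← QuotientGroup.mk_mul]
    refine QuotientGroup.eq.2 ⟨m * m', mul_ne_zero hm hm', ?_⟩
    have e1 : ∀ n : ℤ, (g : G) * z ^ (m * n) = z ^ (k * n) * g := by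
      intro n
      rw [zpow_mul, zpow_mul, ← h1, conj_zpow]
      group
    have e2 : ∀ n : ℤ, (h : G) * z ^ (m' * n) = z ^ (k' * n) * h := by
      intro n
      rw [zpow_mul, zpow_mul, ← h2, conj_zpow]
      group
    have e3 : (g : G) * h * z ^ (m * m') = z ^ (k * k') * (g * h) := by
      rw [mul_assoc, mul_comm m m', e2, ← mul_assoc, mul_comm k' m, e1, mul_assoc]
    have e4 : (h : G) * g * z ^ (m * m') = z ^ (k * k') * (h * g) := by
      rw [mul_assoc, e1, ← mul_assoc, mul_comm k m', e2, mul_assoc, mul_comm k' k]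
    show ((g : G) * h)⁻¹ * (h * g) * z ^ (m * m') = z ^ (m * m') * (((g : G) * h)⁻¹ * (h * g))
    have e5 : z ^ (m * m') * ((g : G) * h)⁻¹ = ((g : G) * h)⁻¹ * z ^ (k * k') := by
      rw [mul_inv_eq_iff_eq_mul, mul_assoc, ← e3, inv_mul_cancel_left]
    rw [← mul_assoc (z ^ (m * m')), e5, mul_assoc, e4, mul_assoc]
  -- the intersection
  have hLn2 : (f.ker ⊓ LL K z).Normal := inferInstance
  have hQ2 : C (K ⧸ (f.ker ⊓ LL K z)) := by
    let F : K →* (K ⧸ f.ker) × (K ⧸ LL K z) :=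
      (QuotientGroup.mk' f.ker).prod (QuotientGroup.mk' (LL K z))
    have hF : ∀ g, F g = 1 ↔ g ∈ f.ker ⊓ LL K z := by
      intro g
      constructor
      · intro h
        exact ⟨(QuotientGroup.eq_one_iff g).1 (congrArg Prod.fst h),
          (QuotientGroup.eq_one_iff g).1 (congrArg Prod.snd h)⟩
      · rintro ⟨h1, h2⟩
        exact Prod.ext ((QuotientGroup.eq_one_iff g).2 h1) ((QuotientGroup.eq_one_iff g).2 h2)
    refine hC.base.of_injective _ _ (QuotientGroup.lift _ F fun g hg => (hF g).2 hg) ?_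
      (hC.base.prod _ _ hQK hKL)
    rw [injective_iff_map_eq_one]
    intro q hq
    obtain ⟨g, rfl⟩ := QuotientGroup.mk_surjective q
    exact (QuotientGroup.eq_one_iff g).2 ((hF g).1 hq)
  refine cyl_sub hC hM hT hact hr y K hK hV (f.ker ⊓ LL K z) hQ2 ?_
  intro v u hvu hvy x hxu hx
  have hxv : x • v = v := (Subgroup.commutator_le_self _ hx).1
  by_contra hx1
  have hx1' : (x : G) ≠ 1 := fun h => hx1 (Subtype.ext h)
  obtain ⟨a, b, ha, hb, hab⟩ := Cm_pow (p := dt h0) (q := dt hvu) hE (hgen hvu hvy)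
    (x := z) (y := (x : G)) hzv hza hxv hxu hz1 hx1'
  refine hH v u hvu x hxv hxu hx1' ((Sb (f.ker ⊓ LL K z) v).map K.subtype) ?_ ?_ ?_
  · rintro _ ⟨g, hg, rfl⟩
    exact hfker g hg.2.1
  · rintro _ ⟨g, ⟨hgv, -, n, hn, hgn⟩, rfl⟩
    refine ⟨hgv, b * n, mul_ne_zero hb hn, ?_⟩
    have h1 : Commute (g : G) (z ^ (a * n)) := by
      rw [mul_comm, zpow_mul]
      exact (show Commute (g : G) (z ^ n) from hgn).zpow_right a
    have h2 : (x : G) ^ (b * n) = z ^ (a * n) := by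
      rw [zpow_mul, ← hab, ← zpow_mul]
    rw [h2]
    exact h1
  · rw [← Subgroup.map_commutator]
    exact ⟨x, hx, rfl⟩

end rk

end Pool.Agent.N509.TK
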