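import Pool.Agent.N509.TK.Fin

/-!
# Edge groups which embed in the first homology of the vertex groups: one homomorphism for each edge
-/

set_option autoImplicit false

namespace Pool.Agent.N509.TK

open SimpleGraph
open Pool.Agent.Y110.FJ

variable {C : ∀ (G : Type) [Group G], Prop}

section

variable {G V : Type} {T : SimpleGraph V} [Group G] [MulAction G V]

theorem Sb_mono {L L' : Subgroup G} (h : L ≤ L') (v : V) : Sb L v ≤ Sb L' v := inf_le_inf_left _ h

/-- finitely many edges -/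
theorem fin_hom' (hC : ClosedE C)
    (hE : ∀ v u : V, T.Adj v u → ∃ (P : Type) (_ : Group P) (f : G →* P), C P ∧
      ∀ x : G, x • v = v → x • u = u → x ∈ ⁅Sb f.ker v, Sb f.ker v⁆ → x = 1) (Φ : Finset (V × V))
    (hΦ : ∀ e ∈ Φ, T.Adj e.1 e.2) :
    ∃ (P : Type) (_ : Group P) (f : G →* P), C P ∧
      ∀ e ∈ Φ, ∀ x : G, x • e.1 = e.1 → x • e.2 = e.2 → x ∈ ⁅Sb f.ker e.1, Sb f.ker e.1⁆ →
        x = 1 := by
  classical
  induction Φ using Finset.induction_on with
  | empty =>
    exact ⟨Multiplicative ℤ, inferInstance, 1, hC.base.int, fun e he => absurd he (by simp)⟩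
  | insert a Φ _ ih =>
    obtain ⟨P, _, f, hP, hf⟩ := ih fun e he => hΦ e (Finset.mem_insert_of_mem he)
    obtain ⟨Q, _, f', hQ, hf'⟩ := hE a.1 a.2 (hΦ a (Finset.mem_insert_self _ _))
    refine ⟨P × Q, inferInstance, f.prod f', hC.base.prod _ _ hP hQ, fun e he x hx hx' h1 => ?_⟩
    have h2 : (f.prod f').ker ≤ f.ker := fun y hy => congrArg Prod.fst (hy : f.prod f' y = 1)
    have h3 : (f.prod f').ker ≤ f'.ker := fun y hy => congrArg Prod.snd (hy : f.prod f' y = 1)
    rcases Finset.mem_insert.1 he with rfl | he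
    · exact hf' x hx hx' (Subgroup.commutator_mono (Sb_mono h3 _) (Sb_mono h3 _) h1)
    · exact hf e he x hx hx' (Subgroup.commutator_mono (Sb_mono h2 _) (Sb_mono h2 _) h1)

/-- **one homomorphism for each edge** -/
theorem hedges (hC : ClosedE C) (hM : ∀ (G : Type) [Group G], derivedSeries G 2 = ⊥ → C G)
    (hT : T.IsTree) (hact : ∀ (g : G) (u v : V), T.Adj u v → T.Adj (g • u) (g • v))
    (hV : ∀ v : V, C ↥(MulAction.stabilizer G v))
    (hE : ∀ v u : V, T.Adj v u → ∃ (P : Type) (_ : Group P) (f : G →* P), C P ∧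
      ∀ x : G, x • v = v → x • u = u → x ∈ ⁅Sb f.ker v, Sb f.ker v⁆ → x = 1) : C G := by
  classical
  obtain ⟨o⟩ := hT.connected.nonempty
  refine Pool.Agent.Y430.SS.of_directed hC.base G (Finset G) (fun i j => ?_)
    (fun s => Subgroup.closure (s : Set G))
    (fun s t h => Subgroup.closure_mono (by exact_mod_cast h))
    (fun g => ⟨{g}, Subgroup.subset_closure (by simp)⟩) (fun S => ?_)
  · exact ⟨i ∪ j, Finset.subset_union_left, Finset.subset_union_right⟩
  obtain ⟨H, hH⟩ : ∃ H : Subgroup G, H = Subgroup.closure (S : Set G) := ⟨_, rfl⟩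
  show C (Subgroup.closure (S : Set G))
  rw [← hH]
  let w : ∀ g : G, T.Walk o (g • o) := fun g => (hT.connected.preconnected o (g • o)).some
  obtain ⟨Φ0, hΦ0⟩ : ∃ Φ0 : Finset (V × V),
      Φ0 = S.biUnion fun s => ((w s).darts.map fun d => d.toProd).toFinset := ⟨_, rfl⟩
  have hΦT0 : ∀ e ∈ Φ0, T.Adj e.1 e.2 := by
    intro e he
    rw [hΦ0, Finset.mem_biUnion] at he
    obtain ⟨s, -, he⟩ := he
    rw [List.mem_toFinset, List.mem_map] at he
    obtain ⟨d, -, rfl⟩ := he
    exact d.adj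
  obtain ⟨Φ, hΦ⟩ : ∃ Φ : Finset (V × V), Φ = Φ0 ∪ Φ0.image Prod.swap := ⟨_, rfl⟩
  have hΦs : ∀ u v : V, (u, v) ∈ Φ → (v, u) ∈ Φ := by
    intro u v h
    rw [hΦ, Finset.mem_union, Finset.mem_image] at h ⊢
    rcases h with h | ⟨⟨a, b⟩, h, h'⟩
    · exact Or.inr ⟨(u, v), h, rfl⟩
    · left
      cases h'
      exact h
  have hΦT : ∀ e ∈ Φ, T.Adj e.1 e.2 := by
    rintro ⟨u, v⟩ h
    rw [hΦ, Finset.mem_union, Finset.mem_image] at h
    rcases h with h | ⟨⟨a, b⟩, h, h'⟩
    · exact hΦT0 _ h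
    · cases h'
      exact (hΦT0 _ h).symm
  have hΦ0s : Φ0 ⊆ Φ := by
    rw [hΦ]
    exact Finset.subset_union_left
  obtain ⟨P, _, f, hP, hf⟩ := fin_hom' hC hE Φ hΦT
  obtain ⟨T', hT'⟩ : ∃ T' : SimpleGraph V, T' = tg T H (Φ : Set (V × V)) := ⟨_, rfl⟩
  have hle : T' ≤ T := by
    rw [hT']
    intro u v h
    exact h.1
  have hreach : ∀ g ∈ H, T'.Reachable o (g • o) := by
    intro g hg
    rw [hH] at hg
    induction hg using Subgroup.closure_induction with
    | mem s hs =>
      rw [hT']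
      refine tg_walk H _ (w s) fun d hd => hΦ0s ?_
      rw [hΦ0]
      simp only [Finset.mem_biUnion, List.mem_toFinset, List.mem_map]
      exact ⟨s, hs, d, hd, rfl⟩
    | one =>
      rw [one_smul]
    | mul a b ha hb iha ihb =>
      rw [mul_smul]
      refine iha.trans ?_
      rw [hT'] at ihb ⊢
      exact tg_reach hact H _ (hH ▸ ha) ihb
    | inv a ha iha =>
      have h1 : T'.Reachable (a⁻¹ • o) (a⁻¹ • a • o) := by
        rw [hT'] at iha ⊢
        exact tg_reach hact H _ (H.inv_mem (hH ▸ ha)) iha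
      rw [inv_smul_smul] at h1
      exact h1.symm
  have hTs : ∀ a ∈ H, ∀ x y : V, T'.Adj x y → T'.Adj (a • x) (a • y) := by
    intro a ha x y h
    rw [hT'] at h ⊢
    exact tg_smul hact H _ ha h
  have hTa : ∀ x y : V, T'.Adj x y → ∃ h ∈ H, (h • x, h • y) ∈ Φ := by
    intro x y h
    rw [hT'] at h
    obtain ⟨-, k, hk, h1⟩ := h
    rcases h1 with h1 | h1
    · exact ⟨k, hk, h1⟩
    · exact ⟨k, hk, hΦs _ _ h1⟩
  obtain ⟨c, hc⟩ : ∃ c : T'.ConnectedComponent, c = T'.connectedComponentMk o := ⟨_, rfl⟩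
  have hcm : ∀ x, x ∈ c.supp ↔ T'.Reachable o x := by
    intro x
    rw [hc, ConnectedComponent.mem_supp_iff, ConnectedComponent.eq]
    exact ⟨fun h => h.symm, fun h => h.symm⟩
  have hcs : ∀ (h : H) (x : V), x ∈ c.supp → (h : G) • x ∈ c.supp := by
    intro h x hx
    rw [hcm] at hx ⊢
    refine (hreach h h.2).trans ?_
    rw [hT'] at hx ⊢
    exact tg_reach hact H _ h.2 hx
  let _ : MulAction H c.supp :=
    { smul := fun h x => ⟨(h : G) • (x : V), hcs h x x.2⟩
      one_smul := fun x => Subtype.ext (one_smul G (x : V))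
      mul_smul := fun h k x => Subtype.ext (mul_smul (h : G) (k : G) (x : V)) }
  have hsm : ∀ (h : H) (x : c.supp), ((h • x : c.supp) : V) = (h : G) • (x : V) := fun _ _ => rfl
  refine hcrit (G := H) (V := c.supp) (T := c.toSimpleGraph) hC hM
    ((hT.isAcyclic.anti hle).isTree_connectedComponent c) ?_ (f.comp H.subtype).ker ?_ ?_ ?_
  · intro h x y hxy
    have h1 : T'.Adj (x : V) (y : V) := hxy
    exact hTs h h.2 _ _ h1
  · exact hC.base.of_injective _ _ (QuotientGroup.kerLift (f.comp H.subtype))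
      (QuotientGroup.kerLift_injective _) hP
  · intro x y hxy g hgx hgy hg
    have h1 : T'.Adj (x : V) (y : V) := hxy
    obtain ⟨k, hk, h2⟩ := hTa _ _ h1
    have hgx' : (g : G) • (x : V) = x := congrArg Subtype.val hgx.1
    have hgy' : (g : G) • (y : V) = y := congrArg Subtype.val hgy.1
    have h3 : (k * (g : G) * k⁻¹) • k • (x : V) = k • (x : V) := by
      rw [mul_smul, mul_smul, inv_smul_smul, hgx']
    have h4 : (k * (g : G) * k⁻¹) • k • (y : V) = k • (y : V) := by
      rw [mul_smul, mul_smul, inv_smul_smul, hgy']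
    have h5 : (Sb (f.comp H.subtype).ker x).map H.subtype ≤ Sb f.ker (x : V) := by
      rintro _ ⟨z, hz, rfl⟩
      exact mem_Sb.2 ⟨congrArg Subtype.val hz.1, hz.2⟩
    have h6 : (g : G) ∈ ⁅Sb f.ker (x : V), Sb f.ker (x : V)⁆ := by
      have h7 : (g : G) ∈ (⁅Sb (f.comp H.subtype).ker x, Sb (f.comp H.subtype).ker x⁆).map H.subtype :=
        ⟨g, hg, rfl⟩
      rw [Subgroup.map_commutator] at h7
      exact Subgroup.commutator_mono h5 h5 h7
    have h8 := hf _ h2 _ h3 h4 (comm_conj f.ker k (x : V) h6)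
    apply Subtype.ext
    show (g : G) = 1
    have h9 : (g : G) = k⁻¹ * (k * (g : G) * k⁻¹) * k := by group
    rw [h9, h8]
    group
  · intro x g hg
    have hg' : (g : G) • (x : V) = x := congrArg Subtype.val hg
    refine hC.base.of_injective _ _ (((H.subtype).comp (Subgroup.subtype
      (Sb (f.comp H.subtype).ker x ⊔ Subgroup.zpowers g))).codRestrict
      (MulAction.stabilizer G (x : V)) ?_) ?_ (hV x)
    · rintro ⟨y, hy⟩
      have h1 : Sb (f.comp H.subtype).ker x ⊔ Subgroup.zpowers g ≤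
          (MulAction.stabilizer G (x : V)).comap H.subtype := by
        refine sup_le ?_ ?_
        · rintro z ⟨hz, -⟩
          exact congrArg Subtype.val hz
        · rw [Subgroup.zpowers_le]
          exact hg'
      exact h1 hy
    · intro a b hab
      have h1 := congrArg Subtype.val hab
      exact Subtype.ext (Subtype.ext h1)

end

/-- **relative version** -/
theorem hrelative (hC : ClosedE C) (hM : ∀ (G : Type) [Group G], derivedSeries G 2 = ⊥ → C G)
    {G V : Type} [Group G] [MulAction G V] {T : SimpleGraph V}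
    (hT : T.IsTree) (hact : ∀ (g : G) (u v : V), T.Adj u v → T.Adj (g • u) (g • v))
    (K : Subgroup G) [K.Normal] (hQ : C (G ⧸ K))
    (hV : ∀ (g : G) (v : V), C ↥(MulAction.stabilizer ↥(K ⊔ Subgroup.zpowers g) v))
    (hE : ∀ (g : G) (v u : V), T.Adj v u →
      ∃ (P : Type) (_ : Group P) (f : ↥(K ⊔ Subgroup.zpowers g) →* P), C P ∧
        ∀ x : ↥(K ⊔ Subgroup.zpowers g), x • v = v → x • u = u →
          x ∈ ⁅Sb f.ker v, Sb f.ker v⁆ → x = 1) :
    C G := by
  have key : ∀ g : G, C ↥(K ⊔ Subgroup.zpowers g) := fun g =>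
    hedges (G := ↥(K ⊔ Subgroup.zpowers g)) hC hM hT (fun x u v h => hact x u v h) (hV g) (hE g)
  refine Pool.Agent.Y529.FJ.t_ext C hC G K ?_ hQ fun g _ => key g
  exact Pool.Agent.R941.FJ.C_le hC.base le_sup_left (key 1)

end Pool.Agent.N509.TK
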