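import Pool.Agent.N509.TK.Tv

/-!
# Trees of orbits

`S` is a subtree of `T` which meets every orbit of the normal subgroup `H` once; the quotient `G / H` acts
on `S`.
-/

set_option autoImplicit false

namespace Pool.Agent.N509.TK

open SimpleGraph
open Pool.Agent.Y110.FJ

variable {G V : Type} {T : SimpleGraph V} [Group G] [MulAction G V] {H : Subgroup G} {S : Set V}

/-- `S` is a transversal for `H` -/
structure Tq (T : SimpleGraph V) (H : Subgroup G) (S : Set V) : Prop where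
  ne : S.Nonempty
  cvx : ∀ x ∈ S, ∀ y ∈ S, ∃ p : T.Walk x y, ∀ z ∈ p.support, z ∈ S
  cover : ∀ v : V, ∃ h ∈ H, ∃ s ∈ S, v = h • s
  trans : ∀ h ∈ H, ∀ s ∈ S, ∀ s' ∈ S, h • s = s' → s = s'
  max : ∀ s ∈ S, ∀ w, T.Adj s w → ∃ u ∈ S, T.Adj s u ∧ ∃ r ∈ H, r • s = s ∧ r • u = w

theorem Tq.of_Tv {R : V → Subgroup G} (hT : T.IsTree)
    (hact : ∀ (g : G) (u v : V), T.Adj u v → T.Adj (g • u) (g • v)) (hR : Fam T R)
    (hS : Tv T R S) : Tq T (⨆ v, R v) S where
  ne := hS.ne
  cvx := hS.cvx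
  cover := hS.cover hT hact hR
  trans h hh s hs s' hs' heq := (hS.trans hT hact hR hh hs hs' heq).1
  max s hs w h := by
    obtain ⟨u, hu, h1, r, hr, h2⟩ := hS.max s hs w h
    exact ⟨u, hu, h1, r, le_iSup R s hr, hR.fix s r hr, h2⟩

section act

variable (hS : Tq T H S)

include hS in
theorem qex (g : G) (s : S) : ∃ s' : S, ∃ h ∈ H, g • (s : V) = h • (s' : V) := by
  obtain ⟨h, hh, s', hs', heq⟩ := hS.cover (g • (s : V))
  exact ⟨⟨s', hs'⟩, h, hh, heq⟩

include hS in
theorem quq {h h' : G} (hh : h ∈ H) (hh' : h' ∈ H) {s s' : S}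
    (heq : h • (s : V) = h' • (s' : V)) : s = s' := by
  refine Subtype.ext (hS.trans (h'⁻¹ * h) (mul_mem (inv_mem hh') hh) s s.2 s' s'.2 ?_)
  rw [mul_smul, heq, inv_smul_smul]

/-- the representative of `g • s` -/
noncomputable def sm (hS : Tq T H S) (g : G) (s : S) : S := Classical.choose (qex hS g s)

theorem sm_spec (g : G) (s : S) : ∃ h ∈ H, g • (s : V) = h • (sm hS g s : V) :=
  Classical.choose_spec (qex hS g s)

theorem sm_eq {g h : G} {s s' : S} (hh : h ∈ H) (heq : g • (s : V) = h • (s' : V)) :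
    sm hS g s = s' := by
  obtain ⟨h', hh', heq'⟩ := sm_spec hS g s
  exact quq hS hh' hh (heq'.symm.trans heq)

variable [H.Normal]

/-- the action of `G` on the transversal -/
@[instance_reducible] noncomputable def ga : MulAction G S where
  smul g s := sm hS g s
  one_smul s := sm_eq hS (one_mem _) rfl
  mul_smul g g' s := by
    have hn : H.Normal := inferInstance
    obtain ⟨h, hh, h1⟩ := sm_spec hS g' s
    obtain ⟨k, hk, h2⟩ := sm_spec hS g (sm hS g' s)
    refine sm_eq hS (h := g * h * g⁻¹ * k) (mul_mem (hn.conj_mem h hh g) hk) ?_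
    show (g * g') • (s : V) = _ • (sm hS g (sm hS g' s) : V)
    rw [mul_smul, h1, mul_smul _ k, ← h2, ← mul_smul, ← mul_smul, inv_mul_cancel_right]

/-- the action of the quotient, as a homomorphism -/
noncomputable def qh : G ⧸ H →* Equiv.Perm S :=
  QuotientGroup.lift _ (@MulAction.toPermHom G S _ (ga hS)) (by
    intro n hn
    apply Equiv.ext
    intro s
    exact sm_eq hS hn rfl)

/-- the action of the quotient -/
@[instance_reducible] noncomputable def qa : MulAction (G ⧸ H) S := MulAction.compHom S (qh hS)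

end act

theorem Tq.isTree (hT : T.IsTree) (hS : Tq T H S) : (T.induce S).IsTree := by
  refine ⟨?_, hT.isAcyclic.induce S⟩
  obtain ⟨o, ho⟩ := hS.ne
  have : Nonempty S := ⟨⟨o, ho⟩⟩
  refine ⟨fun x y => ?_⟩
  obtain ⟨p, hp⟩ := hS.cvx x x.2 y y.2
  exact ⟨p.induce S hp⟩

theorem sm_adj (hact : ∀ (g : G) (u v : V), T.Adj u v → T.Adj (g • u) (g • v))
    (hS : Tq T H S) (g : G) (s t : S) (h : T.Adj s t) : T.Adj (sm hS g s) (sm hS g t) := by
  obtain ⟨a, ha, h1⟩ := sm_spec hS g s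
  obtain ⟨b, hb, h2⟩ := sm_spec hS g t
  have h3 := hact a⁻¹ _ _ (hact g _ _ h)
  rw [h1, h2, inv_smul_smul, ← mul_smul] at h3
  obtain ⟨u, hu, h4, r, hr, -, h5⟩ := hS.max _ (sm hS g s).2 _ h3
  have h6 : (⟨u, hu⟩ : S) = sm hS g t := quq hS hr (mul_mem (inv_mem ha) hb) h5
  rw [← h6]
  exact h4

variable {C : ∀ (G : Type) [Group G], Prop}

/-- the quotient is in the class -/
theorem quot_tree (hC : ClosedE C) (hT : T.IsTree)
    (hact : ∀ (g : G) (u v : V), T.Adj u v → T.Adj (g • u) (g • v)) [H.Normal] (hS : Tq T H S)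
    {P : Type} [Group P] (f : G →* P) (hP : C P) (hH : ∀ h ∈ H, f h = 1)
    (hst : ∀ (v : V) (g : G), g • v = v → f g = 1 → g ∈ H) : C (G ⧸ H) := by
  let _ := qa hS
  refine N24.TR.tree_local (T := T.induce S) (V := S) hC (hS.isTree hT) ?_ ?_
  · intro q s t hst
    obtain ⟨g, rfl⟩ := QuotientGroup.mk_surjective q
    exact sm_adj hact hS g s t hst
  · intro s
    refine ⟨P, _, QuotientGroup.lift _ f hH, hP, fun q hq hfq => ?_⟩
    obtain ⟨g, rfl⟩ := QuotientGroup.mk_surjective q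
    have h1 : sm hS g s = s := hq
    obtain ⟨h, hh, h2⟩ := sm_spec hS g s
    rw [h1] at h2
    have h3 : h⁻¹ * g ∈ H := by
      refine hst s _ (by rw [mul_smul, h2, inv_smul_smul]) ?_
      have h4 : f g = 1 := hfq
      rw [map_mul, map_inv, hH h hh, h4, inv_one, one_mul]
    refine (QuotientGroup.eq_one_iff g).2 ?_
    have h4 := mul_mem hh h3
    rwa [mul_inv_cancel_left] at h4

end Pool.Agent.N509.TK
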