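import Pool.Agent.N509.TK.Cy2

/-!
# Cylinders whose edge groups embed in the first homology
-/

set_option autoImplicit false

namespace Pool.Agent.N509.TK

open SimpleGraph
open Pool.Agent.Y110.FJ
open Pool.Agent.R941.FJ (C_equiv C_le C_cyc mem_sup_normal)

variable {C : ∀ (G : Type) [Group G], Prop}
variable {G V : Type} [Group G] [MulAction G V] {T : SimpleGraph V} {r : V → V → V → Prop}

theorem cy_congr {v v' a a' : V} (h : T.Adj v a) (h' : T.Adj v' a') (hv : v = v') (ha : a = a') :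
    cy r h = cy r h' := by
  subst hv
  subst ha
  rfl

theorem adj_cy (hT : T.IsTree) (hr : LR G T r) {y : Cyl T r} {v u : V} (hv : Mem y v) (hu : Mem y u)
    (h : T.Adj v u) : cy r h = y := f1 hT hr hv hu (St_adj h)

theorem path_mem (hT : T.IsTree) (hr : LR G T r) {y : Cyl T r} {v u : V} (hv : Mem y v)
    (hu : Mem y u) (p : T.Walk v u) (hp : p.IsPath) : ∀ z ∈ p.support, Mem y z := by
  induction p with
  | nil =>
    intro z hz
    rw [Walk.support_nil, List.mem_singleton] at hz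
    rw [hz]
    exact hv
  | @cons v w u h p ih =>
    rw [Walk.cons_isPath_iff] at hp
    have h1 := f1 hT hr hv hu ⟨h, p, hp.2⟩
    have hw : Mem y w := by
      rw [← h1]
      exact Mem_cy' h
    intro z hz
    rw [Walk.support_cons, List.mem_cons] at hz
    rcases hz with rfl | hz
    · exact hv
    · exact ih hw hu hp.1 z hz

theorem Pres.mem {hact : ∀ (g : G) (u v : V), T.Adj u v → T.Adj (g • u) (g • v)} {y : Cyl T r}
    {g : G} (h : Pres hact y g) {v : V} (hv : Mem y v) : Mem y (g • v) := by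
  obtain ⟨a, ha, hay⟩ := hv
  exact ⟨g • a, hact g v a ha, h v a ha hay⟩

/-- groups which preserve a cylinder -/
theorem cyl_sub (hC : ClosedE C) (hM : ∀ (G : Type) [Group G], derivedSeries G 2 = ⊥ → C G)
    (hT : T.IsTree) (hact : ∀ (g : G) (u v : V), T.Adj u v → T.Adj (g • u) (g • v))
    (hr : LR G T r) (y : Cyl T r) (K : Subgroup G) (hK : ∀ g ∈ K, Pres hact y g)
    (hV : ∀ v : V, C ↥(MulAction.stabilizer G v)) (L : Subgroup K) [L.Normal] (hQ : C (K ⧸ L))
    (hH : ∀ (v u : V) (h : T.Adj v u), cy r h = y → ∀ x : K, x • u = u → x ∈ ⁅Sb L v, Sb L v⁆ →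
      x = 1) : C K := by
  let _ : MulAction K {v : V | Mem y v} :=
    { smul := fun g v => ⟨(g : G) • (v : V), (hK g g.2).mem v.2⟩
      one_smul := fun v => Subtype.ext (one_smul G (v : V))
      mul_smul := fun g h v => Subtype.ext (mul_smul (g : G) (h : G) (v : V)) }
  have htree : (T.induce {v : V | Mem y v}).IsTree := by
    refine ⟨?_, hT.isAcyclic.induce _⟩
    obtain ⟨⟨⟨o, a⟩, h⟩, hy⟩ := Quotient.exists_rep y
    have : Nonempty {v : V | Mem y v} := ⟨⟨o, a, h, hy⟩⟩
    refine ⟨fun v u => ?_⟩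
    obtain ⟨p, hp, -⟩ := hT.existsUnique_path (v : V) (u : V)
    exact ⟨p.induce _ (path_mem hT hr v.2 u.2 p hp)⟩
  have hSb : ∀ v : {v : V | Mem y v}, Sb L v = Sb L (v : V) := by
    intro v
    ext g
    rw [mem_Sb, mem_Sb]
    exact and_congr_left fun _ => ⟨fun h => congrArg Subtype.val h, fun h => Subtype.ext h⟩
  refine hcrit (G := K) (V := {v : V | Mem y v}) (T := T.induce {v : V | Mem y v}) hC hM htree ?_ L
    hQ ?_ ?_
  · intro g v u h
    exact hact g _ _ h
  · intro v u hvu x hxv hxu hx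
    rw [hSb] at hx
    exact hH v u hvu (adj_cy hT hr v.2 u.2 hvu) x (congrArg Subtype.val hxu.1) hx
  · intro v g hg
    refine hC.base.of_injective _ _ ((K.subtype.comp (Subgroup.subtype
      (Sb L v ⊔ Subgroup.zpowers g))).codRestrict (MulAction.stabilizer G (v : V)) ?_) ?_ (hV v)
    · rintro ⟨z, hz⟩
      have h1 : Sb L v ⊔ Subgroup.zpowers g ≤ (MulAction.stabilizer G (v : V)).comap K.subtype := by
        refine sup_le ?_ ?_
        · rintro z ⟨hz, -⟩
          exact congrArg Subtype.val hz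
        · rw [Subgroup.zpowers_le]
          exact congrArg Subtype.val hg
      exact h1 hz
    · intro a b hab
      have h1 := congrArg Subtype.val hab
      exact Subtype.ext (Subtype.ext h1)

/-- groups which preserve a cylinder, with one homomorphism for each edge -/
theorem cyl_sub_loc (hC : ClosedE C) (hM : ∀ (G : Type) [Group G], derivedSeries G 2 = ⊥ → C G)
    (hT : T.IsTree) (hact : ∀ (g : G) (u v : V), T.Adj u v → T.Adj (g • u) (g • v))
    (hr : LR G T r) (y : Cyl T r) (K : Subgroup G) (hK : ∀ g ∈ K, Pres hact y g)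
    (hV : ∀ v : V, C ↥(MulAction.stabilizer G v))
    (hH : ∀ (v u : V) (h : T.Adj v u), cy r h = y → ∃ (P : Type) (_ : Group P) (f : K →* P), C P ∧
      ∀ x : K, x • u = u → x ∈ ⁅Sb f.ker v, Sb f.ker v⁆ → x = 1) : C K := by
  let _ : MulAction K {v : V | Mem y v} :=
    { smul := fun g v => ⟨(g : G) • (v : V), (hK g g.2).mem v.2⟩
      one_smul := fun v => Subtype.ext (one_smul G (v : V))
      mul_smul := fun g h v => Subtype.ext (mul_smul (g : G) (h : G) (v : V)) }
  have htree : (T.induce {v : V | Mem y v}).IsTree := by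
    refine ⟨?_, hT.isAcyclic.induce _⟩
    obtain ⟨⟨⟨o, a⟩, h⟩, hy⟩ := Quotient.exists_rep y
    have : Nonempty {v : V | Mem y v} := ⟨⟨o, a, h, hy⟩⟩
    refine ⟨fun v u => ?_⟩
    obtain ⟨p, hp, -⟩ := hT.existsUnique_path (v : V) (u : V)
    exact ⟨p.induce _ (path_mem hT hr v.2 u.2 p hp)⟩
  have hSb : ∀ (L : Subgroup K) (v : {v : V | Mem y v}), Sb L v = Sb L (v : V) := by
    intro L v
    ext g
    rw [mem_Sb, mem_Sb]
    exact and_congr_left fun _ => ⟨fun h => congrArg Subtype.val h, fun h => Subtype.ext h⟩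
  refine hedges (G := K) (V := {v : V | Mem y v}) (T := T.induce {v : V | Mem y v}) hC hM htree ?_
    ?_ ?_
  · intro g v u h
    exact hact g _ _ h
  · intro v
    refine hC.base.of_injective _ _ ((K.subtype.comp (Subgroup.subtype
      (MulAction.stabilizer K v))).codRestrict (MulAction.stabilizer G (v : V)) ?_) ?_ (hV v)
    · rintro ⟨z, hz⟩
      exact congrArg Subtype.val hz
    · intro a b hab
      have h1 := congrArg Subtype.val hab
      exact Subtype.ext (Subtype.ext h1)
  · intro v u hvu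
    obtain ⟨P, _, f, hP, hf⟩ := hH v u hvu (adj_cy hT hr v.2 u.2 hvu)
    refine ⟨P, _, f, hP, fun x _ hxu hx => hf x (congrArg Subtype.val hxu) ?_⟩
    rwa [← hSb]

/-- **the theorem on cylinders whose edge groups embed in the first homology** -/
theorem omega (hC : ClosedE C) (hM : ∀ (G : Type) [Group G], derivedSeries G 2 = ⊥ → C G)
    (hA : Acyl C) (hT : T.IsTree) (hact : ∀ (g : G) (u v : V), T.Adj u v → T.Adj (g • u) (g • v))
    (hr : LR G T r)
    (hint : ∀ w a b, T.Adj w a → T.Adj w b → ¬ r w a b →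
      ∀ g : G, g • w = w → g • a = a → g • b = b → g = 1)
    (hV : ∀ v : V, C ↥(MulAction.stabilizer G v))
    (hH : ∀ v u : V, T.Adj v u → ∃ (P : Type) (_ : Group P) (f : G →* P), C P ∧
      ∀ S : Subgroup G, S ≤ f.ker → (∀ g ∈ S, g • v = v ∧ r v u (g • u)) →
        ∀ x ∈ ⁅S, S⁆, x • u = u → x = 1) : C G := by
  refine cyl hC hA hT hact hr hint hV fun y K hK => ?_
  refine cyl_sub_loc hC hM hT hact hr y K hK hV ?_
  intro v u hvu hy
  obtain ⟨P, _, f, hP, hf⟩ := hH v u hvu
  refine ⟨P, _, f.comp K.subtype, hP, fun x hxu hx => ?_⟩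
  obtain ⟨S, hS⟩ : ∃ S : Subgroup G,
    S = (Sb ((f.comp K.subtype).ker) v).map K.subtype := ⟨_, rfl⟩
  have hxS : (x : G) ∈ ⁅S, S⁆ := by
    rw [hS, ← Subgroup.map_commutator]
    exact ⟨x, hx, rfl⟩
  refine Subtype.ext (hf S ?_ ?_ x hxS hxu)
  · rw [hS]
    rintro _ ⟨g, hg, rfl⟩
    exact hg.2
  · rw [hS]
    rintro _ ⟨g, hg, rfl⟩
    have hgv : (g : G) • v = v := hg.1
    refine ⟨hgv, ?_⟩
    have h1 := hK g g.2 v u hvu hy
    have h2 : T.Adj v ((g : G) • u) := by
      have := hact g _ _ hvu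
      rwa [hgv] at this
    refine gl hT hr hvu h2 ?_
    rw [hy, ← h1]
    exact cy_congr _ _ hgv rfl

end Pool.Agent.N509.TK
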