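import Pool.Agent.N509.TK.Tv

/-!
# Extensions by the group generated by an equivariant family
-/

set_option autoImplicit false

namespace Pool.Agent.N509.TK

open SimpleGraph
open Pool.Agent.Y110.FJ
open Pool.Agent.R941.FJ (C_equiv C_le C_cyc mem_sup_normal)
open Pool.Agent.R684.FP

variable {C : ∀ (G : Type) [Group G], Prop}

/-- extensions by free products; the condition on the cartesian subgroup is separate -/
theorem fpx (hC : ClosedE C) {G I : Type} [Group G] {N : Subgroup G} [N.Normal]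
    (A : I → Subgroup G) (hA : IsFreeProd N A) (hne : ∀ i, A i ≠ ⊥)
    (hp : ∀ (i : I) (g : G), ∃ j, ∃ n ∈ N, ∀ x, x ∈ A i ↔ n * (g * x * g⁻¹) * n⁻¹ ∈ A j)
    (hB : ∀ (i : I) (g : G), (∀ x, x ∈ A i ↔ g * x * g⁻¹ ∈ A i) → C ↥(A i ⊔ Subgroup.zpowers g))
    (hQ : C (G ⧸ N))
    (hK : ∀ K : Subgroup G, K.Normal → K ≤ N → (∀ i, ∀ x ∈ A i, x ∈ K → x = 1) →
      ∀ g, C ↥(K ⊔ Subgroup.zpowers g)) : C G := by
  have hp' : Pm A Set.univ N := by
    intro i _ g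
    obtain ⟨j, n, hn, h⟩ := hp i g
    exact ⟨j, Set.mem_univ _, n, hn, h⟩
  have hMn := Mk_normal A Set.univ hA hp'
  have d := dat A Set.univ hA (fun i _ => hne i) hp'
  have hCn := Ct_normal d
  have hsub : ∀ f f' : Fr A Set.univ, f = f' := by
    intro f f'
    have h1 : (MonoidHom.id (Fr A Set.univ)) = 1 := by
      apply Monoid.CoprodI.ext_hom
      intro i
      exact absurd (Set.mem_univ _) i.2
    have h2 : ∀ f : Fr A Set.univ, f = 1 := fun f => DFunLike.congr_fun h1 f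
    rw [h2 f, h2 f']
  have hMk : Mk A Set.univ = N := by
    apply le_antisymm (Mk_le A _ hA)
    rw [← jj_range A hA]
    rintro _ ⟨y, rfl⟩
    exact ⟨y, hsub _ _, rfl⟩
  refine regular hC d (fun g => ?_) ?_ ?_
  · refine hK _ hCn (Ct_le.trans (Mk_le A _ hA)) ?_ g
    intro i x hx hxK
    have h1 : x ∈ Bb A Set.univ (⟨i, Set.mem_univ _⟩, 1) := by
      rw [mem_Bb]
      simpa using hx
    have h2 : x ∈ Bb A Set.univ (⟨i, Set.mem_univ _⟩, 1) ⊓
        NC (Mk A Set.univ) (Bb A Set.univ) (⟨i, Set.mem_univ _⟩, 1) := ⟨h1, Ct_le' _ hxK⟩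
    rwa [d.reg, Subgroup.mem_bot] at h2
  · -- conjugate
    intro p g hg
    obtain ⟨c, hc⟩ : ∃ c, c = jj A (sc A Set.univ p.2) := ⟨_, rfl⟩
    have hBb : Bb A Set.univ p = (A p.1.1).map (MulAut.conj c).toMonoidHom := by rw [Bb, hc]
    have h1 : ∀ x, x ∈ A p.1.1 ↔ (c⁻¹ * g * c) * x * (c⁻¹ * g * c)⁻¹ ∈ A p.1.1 := by
      intro x
      have h2 := hg (c * x * c⁻¹)
      rw [mem_Bb, mem_Bb, ← hc] at h2
      have h3 : c⁻¹ * (c * x * c⁻¹) * c = x := by group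
      have h4 : c⁻¹ * (g * (c * x * c⁻¹) * g⁻¹) * c = (c⁻¹ * g * c) * x * (c⁻¹ * g * c)⁻¹ := by group
      rwa [h3, h4] at h2
    have h2 := hB p.1.1 _ h1
    have h3 : Bb A Set.univ p ⊔ Subgroup.zpowers g =
        (A p.1.1 ⊔ Subgroup.zpowers (c⁻¹ * g * c)).map (MulAut.conj c).toMonoidHom := by
      rw [Subgroup.map_sup, ← hBb, MonoidHom.map_zpowers]
      congr 2
      show g = c * (c⁻¹ * g * c) * c⁻¹
      group
    rw [h3]
    exact C_equiv hC.base ((A p.1.1 ⊔ Subgroup.zpowers (c⁻¹ * g * c)).equivMapOfInjective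
      (MulAut.conj c).toMonoidHom (MulAut.conj c).injective).symm h2
  · exact C_equiv hC.base (QuotientGroup.quotientMulEquivOfEq hMk) hQ

section tree

variable {G V : Type} {T : SimpleGraph V} [Group G] [MulAction G V] {R : V → Subgroup G}

/-- a normal subgroup which meets the stabilizers trivially -/
theorem free_cyc (hC : ClosedE C) (hT : T.IsTree)
    (hact : ∀ (g : G) (u v : V), T.Adj u v → T.Adj (g • u) (g • v)) (K : Subgroup G) [K.Normal]
    (hK : ∀ v : V, ∀ x ∈ K, x • v = v → x = 1) (g : G) : C ↥(K ⊔ Subgroup.zpowers g) := by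
  have hmem : ∀ x : ↥(K ⊔ Subgroup.zpowers g), ((x : G) : G ⧸ K) ∈ Subgroup.zpowers (g : G ⧸ K) := by
    rintro ⟨x, hx⟩
    obtain ⟨a, ha, _, ⟨n, rfl⟩, rfl⟩ := mem_sup_normal.1 hx
    refine ⟨n, ?_⟩
    show (g : G ⧸ K) ^ n = ((a * g ^ n : G) : G ⧸ K)
    rw [QuotientGroup.mk_mul, (QuotientGroup.eq_one_iff a).2 ha, one_mul]
    rfl
  let f : ↥(K ⊔ Subgroup.zpowers g) →* Subgroup.zpowers (g : G ⧸ K) :=
    ((QuotientGroup.mk' K).comp (Subgroup.subtype _)).codRestrict _ hmem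
  refine N24.TR.tree_local (G := ↥(K ⊔ Subgroup.zpowers g)) hC hT (fun x u v h => hact x u v h)
    fun v => ⟨_, _, f, C_cyc hC.base _, fun x hx hfx => ?_⟩
  have h1 : ((x : G) : G ⧸ K) = 1 := congrArg Subtype.val hfx
  exact Subtype.ext (hK v x ((QuotientGroup.eq_one_iff _).1 h1) hx)

theorem Fam.normal (hR : Fam T R) : (⨆ v, R v).Normal := by
  refine ⟨fun x hx g => ?_⟩
  have h1 : (⨆ v, R v) ≤ (⨆ v, R v).comap (MulAut.conj g).toMonoidHom :=
    iSup_le fun v x hx => le_iSup R (g • v) (hR.eqv g v x hx)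
  exact h1 hx

/-- **extensions by the group generated by an equivariant family** -/
theorem ext (hC : ClosedE C) (hT : T.IsTree)
    (hact : ∀ (g : G) (u v : V), T.Adj u v → T.Adj (g • u) (g • v)) (hR : Fam T R)
    [(⨆ v, R v).Normal] (hQ : C (G ⧸ ⨆ v, R v))
    (hB : ∀ (v : V) (g : G), g • v = v → C ↥(R v ⊔ Subgroup.zpowers g)) : C G := by
  obtain ⟨S, hS⟩ := Tv.exists (R := R) hT
  refine fpx hC (fun i : Ix R S => R i.1) (hS.freeProd hT hact hR) (fun i => i.2.2) ?_ ?_ hQ ?_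
  · rintro ⟨s, hs, hne⟩ g
    obtain ⟨h, hh, s', hs', heq⟩ := hS.cover hT hact hR (g • s)
    have h1 : s' = (h⁻¹ * g) • s := by rw [mul_smul, heq, inv_smul_smul]
    have h2 : ∀ x, x ∈ R s ↔ h⁻¹ * (g * x * g⁻¹) * h⁻¹⁻¹ ∈ R s' := by
      intro x
      rw [hR.conj_mem h1]
      have : h⁻¹ * (g * x * g⁻¹) * h⁻¹⁻¹ = h⁻¹ * g * x * (h⁻¹ * g)⁻¹ := by group
      rw [this]
    refine ⟨⟨s', hs', fun hb => hne ?_⟩, h⁻¹, inv_mem hh, h2⟩
    rw [eq_bot_iff]
    intro x hx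
    have h3 := (h2 x).1 hx
    rw [hb, Subgroup.mem_bot] at h3
    rw [Subgroup.mem_bot]
    have h4 : x = g⁻¹ * h * (h⁻¹ * (g * x * g⁻¹) * h⁻¹⁻¹) * h⁻¹ * g := by group
    rw [h4, h3]
    group
  · rintro ⟨s, hs, hne⟩ g hg
    apply hB
    obtain ⟨⟨r, hr⟩, hr1⟩ := Subgroup.ne_bot_iff_exists_ne_one.1 hne
    have h1 : g * r * g⁻¹ ∈ R s := (hg r).1 hr
    refine hR.unique hT hact h1 ?_ ?_
    · rw [mul_smul, inv_smul_smul, mul_smul, hR.fix s r hr]
    · intro h2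
      apply hr1
      apply Subtype.ext
      show r = 1
      have h3 : r = g⁻¹ * (g * r * g⁻¹) * g := by group
      rw [h3, h2]
      group
  · intro K hKn hKN hK g
    refine free_cyc hC hT hact K (fun v x hx hxv => ?_) g
    have h1 := hS.stab hT hact hR (hKN hx) hxv
    obtain ⟨h, hh, s, hs, rfl⟩ := hS.cover hT hact hR v
    have h2 := hR.eqv h⁻¹ _ x h1
    rw [inv_smul_smul] at h2
    have h3 : h⁻¹ * x * h⁻¹⁻¹ = 1 := by
      by_cases hb : R s = ⊥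
      · rw [hb, Subgroup.mem_bot] at h2
        exact h2
      · exact hK ⟨s, hs, hb⟩ _ h2 (hKn.conj_mem x hx h⁻¹)
    have h4 : x = h * (h⁻¹ * x * h⁻¹⁻¹) * h⁻¹ := by group
    rw [h4, h3]
    group

end tree

end Pool.Agent.N509.TK
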