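import Mathlib

/-!
# Characters with values in `ℚ / ℤ`
-/

set_option autoImplicit false

namespace Pool.Agent.N509.TK

/-- the values of the characters -/
abbrev EE : Type := Multiplicative (AddCircle (1 : ℚ))

theorem ext_comm {D B : Type} [CommGroup D] [CommGroup B] (i : D →* B) (hi : Function.Injective i)
    (f : D →* EE) : ∃ F : B →* EE, ∀ d, F (i d) = f d := by
  obtain ⟨h, hh⟩ := (Module.Baer.of_divisible (AddCircle (1 : ℚ))).extension_property_addMonoidHom
    (MonoidHom.toAdditive i) hi (MonoidHom.toAdditiveLeft f)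
  refine ⟨AddMonoidHom.toMultiplicativeRight h, fun d => ?_⟩
  have h1 := DFunLike.congr_fun hh (Additive.ofMul d)
  exact congrArg Multiplicative.ofAdd h1

theorem sep_comm {B : Type} [CommGroup B] {x : B} (hx : x ≠ 1) : ∃ F : B →* EE, F x ≠ 1 := by
  obtain ⟨c, hc⟩ := CharacterModule.exists_character_apply_ne_zero_of_ne_zero
    (A := Additive B) (a := Additive.ofMul x) (fun h => hx h)
  refine ⟨AddMonoidHom.toMultiplicativeRight c, fun h => hc ?_⟩
  exact h

variable {G : Type} [Group G]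

/-- `f` is a homomorphism on the subgroup `A` -/
def PHom (A : Subgroup G) (f : G → EE) : Prop := ∀ x ∈ A, ∀ y ∈ A, f (x * y) = f x * f y

theorem PHom.mono {A B : Subgroup G} {f : G → EE} (h : PHom A f) (hB : B ≤ A) : PHom B f :=
  fun x hx y hy => h x (hB hx) y (hB hy)

theorem PHom.one {A : Subgroup G} {f : G → EE} (h : PHom A f) : f 1 = 1 := by
  have h1 := h 1 A.one_mem 1 A.one_mem
  rw [mul_one] at h1
  exact left_eq_mul.1 h1

theorem PHom.inv {A : Subgroup G} {f : G → EE} (h : PHom A f) {x : G} (hx : x ∈ A) :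
    f x⁻¹ = (f x)⁻¹ := by
  have h1 := h x hx x⁻¹ (A.inv_mem hx)
  rw [mul_inv_cancel, h.one] at h1
  exact eq_inv_of_mul_eq_one_right h1.symm

/-- the homomorphism -/
def PHom.hom {A : Subgroup G} {f : G → EE} (h : PHom A f) : A →* EE where
  toFun x := f x
  map_one' := h.one
  map_mul' x y := h x x.2 y y.2

open Classical in
/-- the extension by `1` of a homomorphism -/
noncomputable def exh (A : Subgroup G) (F : A →* EE) (x : G) : EE := if h : x ∈ A then F ⟨x, h⟩ else 1

theorem exh_eq (A : Subgroup G) (F : A →* EE) {x : G} (h : x ∈ A) : exh A F x = F ⟨x, h⟩ := dif_pos h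

theorem exh_phom (A : Subgroup G) (F : A →* EE) : PHom A (exh A F) := by
  intro x hx y hy
  rw [exh_eq A F hx, exh_eq A F hy, exh_eq A F (A.mul_mem hx hy), ← map_mul]
  rfl

theorem mem_comm_iff (A : Subgroup G) (x : A) : (x : G) ∈ ⁅A, A⁆ ↔ x ∈ commutator A := by
  rw [← Subgroup.map_subtype_commutator]
  constructor
  · rintro ⟨y, hy, hyx⟩
    have : y = x := Subtype.ext hyx
    rwa [← this]
  · intro h
    exact ⟨x, h, rfl⟩

/-- extension of characters -/
theorem ext_char (A B : Subgroup G) (hAB : ∀ x ∈ A, x ∈ B → x ∈ ⁅A, A⁆ → x = 1) (f : G → EE)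
    (hf : PHom B f) : ∃ f' : G → EE, PHom A f' ∧ ∀ x ∈ A, x ∈ B → f' x = f x := by
  let i0 : ↥(A ⊓ B) →* Abelianization A :=
    Abelianization.of.comp (Subgroup.inclusion (inf_le_left : A ⊓ B ≤ A))
  have hi0 : Function.Injective i0 := by
    rw [injective_iff_map_eq_one]
    intro x hx
    have h1 : Subgroup.inclusion (inf_le_left : A ⊓ B ≤ A) x ∈ commutator A :=
      (QuotientGroup.eq_one_iff _).1 hx
    have h2 := (mem_comm_iff A _).2 h1
    exact Subtype.ext (hAB x x.2.1 x.2.2 h2)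
  let e : ↥(A ⊓ B) ≃* i0.range := MonoidHom.ofInjective hi0
  let f0 : ↥(A ⊓ B) →* EE := (hf.mono (inf_le_right : A ⊓ B ≤ B)).hom
  obtain ⟨F, hF⟩ := ext_comm (i0.range.subtype) (Subgroup.subtype_injective _)
    (f0.comp e.symm.toMonoidHom)
  refine ⟨exh A (F.comp Abelianization.of), exh_phom _ _, fun x hxA hxB => ?_⟩
  rw [exh_eq A _ hxA]
  have h1 := hF (e ⟨x, hxA, hxB⟩)
  have h2 : e.symm (e ⟨x, hxA, hxB⟩) = ⟨x, hxA, hxB⟩ := e.symm_apply_apply _
  have h3 : (f0.comp e.symm.toMonoidHom) (e ⟨x, hxA, hxB⟩) = f x := by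
    show f0 (e.symm (e ⟨x, hxA, hxB⟩)) = f x
    rw [h2]
    rfl
  rw [h3] at h1
  exact h1

/-- separation by characters -/
theorem sep_char (A : Subgroup G) {x : G} (hx : x ∈ A) (h : x ∉ ⁅A, A⁆) :
    ∃ f : G → EE, PHom A f ∧ f x ≠ 1 := by
  have h1 : (Abelianization.of (⟨x, hx⟩ : A)) ≠ 1 := by
    intro h2
    exact h ((mem_comm_iff A ⟨x, hx⟩).2 ((QuotientGroup.eq_one_iff _).1 h2))
  obtain ⟨F, hF⟩ := sep_comm h1
  refine ⟨exh A (F.comp Abelianization.of), exh_phom _ _, ?_⟩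
  rw [exh_eq A _ hx]
  exact hF

theorem PHom.comm_eq_one {A : Subgroup G} {f : G → EE} (h : PHom A f) {x : G} (hx : x ∈ ⁅A, A⁆) :
    f x = 1 := by
  have hxA : x ∈ A := Subgroup.commutator_le_self A hx
  have h1 := (mem_comm_iff A ⟨x, hxA⟩).1 hx
  have h2 : commutator A ≤ h.hom.ker := Abelianization.commutator_subset_ker _
  exact h2 h1

end Pool.Agent.N509.TK
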