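import Pool.Agent.N509.TK.Om

/-!
# Abelian edge groups and CSA vertex groups
-/

set_option autoImplicit false

namespace Pool.Agent.N509.TK

open SimpleGraph
open Pool.Agent.Y110.FJ
open Pool.Agent.R941.FJ (C_equiv C_le C_cyc mem_sup_normal)

/-- the maximal abelian subgroups are malnormal -/
def IsCSA (H : Type) [Group H] : Prop :=
  ∀ A : Subgroup H, (∀ a ∈ A, ∀ b ∈ A, a * b = b * a) → (∀ g, (∀ a ∈ A, g * a = a * g) → g ∈ A) →
    ∀ g, (∃ a ∈ A, a ≠ 1 ∧ g * a * g⁻¹ ∈ A) → g ∈ A

section csa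

variable {H : Type} [Group H]

/-- every abelian subgroup is contained in a maximal one -/
theorem exists_max_ab (B : Subgroup H) (hB : ∀ a ∈ B, ∀ b ∈ B, a * b = b * a) :
    ∃ A : Subgroup H, B ≤ A ∧ (∀ a ∈ A, ∀ b ∈ A, a * b = b * a) ∧
      ∀ g, (∀ a ∈ A, g * a = a * g) → g ∈ A := by
  obtain ⟨A, hBA, hA⟩ := zorn_le_nonempty₀
    {A : Subgroup H | ∀ a ∈ A, ∀ b ∈ A, a * b = b * a} (fun c hc hch A₀ hA₀ => by
      refine ⟨sSup c, ?_, fun A hA => le_sSup hA⟩
      have hdir : DirectedOn (· ≤ ·) c := hch.directedOn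
      intro a ha b hb
      rw [Subgroup.mem_sSup_of_directedOn ⟨A₀, hA₀⟩ hdir] at ha hb
      obtain ⟨X, hX, ha⟩ := ha
      obtain ⟨Y, hY, hb⟩ := hb
      obtain ⟨Z, hZ, hXZ, hYZ⟩ := hdir X hX Y hY
      exact hc hZ a (hXZ ha) b (hYZ hb)) B hB
  refine ⟨A, hBA, hA.1, fun g hg => ?_⟩
  have h1 : ∀ x ∈ A ⊔ Subgroup.zpowers g, ∀ y ∈ A ⊔ Subgroup.zpowers g, x * y = y * x := by
    have h2 : A ⊔ Subgroup.zpowers g ≤ Subgroup.centralizer ((A ⊔ Subgroup.zpowers g : Subgroup H) :
        Set H) := by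
      have h3 : A ≤ Subgroup.centralizer ((A ⊔ Subgroup.zpowers g : Subgroup H) : Set H) := by
        intro a ha
        have h4 : A ⊔ Subgroup.zpowers g ≤ Subgroup.centralizer {a} := by
          refine sup_le ?_ ?_
          · intro b hb
            rw [Subgroup.mem_centralizer_singleton_iff]
            exact hA.1 b hb a ha
          · rw [Subgroup.zpowers_le, Subgroup.mem_centralizer_singleton_iff]
            exact hg a ha
        rw [Subgroup.mem_centralizer_iff]
        intro b hb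
        have := Subgroup.mem_centralizer_singleton_iff.1 (h4 hb)
        exact this
      refine sup_le h3 ?_
      rw [Subgroup.zpowers_le]
      have h4 : A ⊔ Subgroup.zpowers g ≤ Subgroup.centralizer {g} := by
        refine sup_le ?_ ?_
        · intro b hb
          rw [Subgroup.mem_centralizer_singleton_iff]
          exact (hg b hb).symm
        · rw [Subgroup.zpowers_le, Subgroup.mem_centralizer_singleton_iff]
      rw [Subgroup.mem_centralizer_iff]
      intro b hb
      exact Subgroup.mem_centralizer_singleton_iff.1 (h4 hb)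
    intro x hx y hy
    exact (Subgroup.mem_centralizer_iff.1 (h2 hx) y hy).symm
  have h2 := hA.2 (y := A ⊔ Subgroup.zpowers g) h1 le_sup_left
  exact h2 (Subgroup.mem_sup_right (Subgroup.mem_zpowers g))

/-- two commuting elements are in a maximal abelian subgroup -/
theorem exists_max_two {a b : H} (hab : a * b = b * a) :
    ∃ A : Subgroup H, a ∈ A ∧ b ∈ A ∧ (∀ a ∈ A, ∀ b ∈ A, a * b = b * a) ∧
      ∀ g, (∀ a ∈ A, g * a = a * g) → g ∈ A := by
  have h1 : ∀ x ∈ Subgroup.closure {a, b}, ∀ y ∈ Subgroup.closure {a, b}, x * y = y * x := by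
    intro x hx y hy
    have hc : ∀ u ∈ ({a, b} : Set H), ∀ v ∈ ({a, b} : Set H), u * v = v * u := by
      rintro u (rfl | rfl) v (rfl | rfl)
      · rfl
      · exact hab
      · exact hab.symm
      · rfl
    haveI := Subgroup.isMulCommutative_closure hc
    exact setLike_mul_comm hx hy
  obtain ⟨A, hBA, hA, hA'⟩ := exists_max_ab (Subgroup.closure {a, b}) h1
  exact ⟨A, hBA (Subgroup.subset_closure (by simp)), hBA (Subgroup.subset_closure (by simp)), hA, hA'⟩

/-- commutative transitivity -/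
theorem IsCSA.ct (h : IsCSA H) {x a b : H} (hx : x ≠ 1) (ha : a * x = x * a) (hb : b * x = x * b) :
    a * b = b * a := by
  obtain ⟨A, haA, hxA, hA, hA'⟩ := exists_max_two ha
  refine hA a haA b (h A hA hA' b ⟨x, hxA, hx, ?_⟩)
  rw [hb, mul_inv_cancel_right]
  exact hxA

theorem IsCSA.mal (h : IsCSA H) {x g : H} (hx : x ≠ 1) (hg : x * (g * x * g⁻¹) = g * x * g⁻¹ * x) :
    g * x = x * g := by
  obtain ⟨A, hxA, hgA, hA, hA'⟩ := exists_max_two hg
  exact hA g (h A hA hA' g ⟨x, hxA, hx, hgA⟩) x hxA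

end csa

variable {C : ∀ (G : Type) [Group G], Prop}

/-- the relation for abelian edge groups -/
def rc (G : Type) {V : Type} [Group G] [MulAction G V] (w a b : V) : Prop :=
  a = b ∨ ((∃ x : G, x • w = w ∧ x • a = a ∧ x ≠ 1) ∧ (∃ x : G, x • w = w ∧ x • b = b ∧ x ≠ 1) ∧
    ∀ x y : G, x • w = w → x • a = a → y • w = w → y • b = b → x * y = y * x)

/-- **abelian edge groups whose nontrivial elements have abelian malnormal centralizers** -/
theorem abel (hC : ClosedE C) (hM : ∀ (G : Type) [Group G], derivedSeries G 2 = ⊥ → C G)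
    (hA : Acyl C) {G V : Type} [Group G] [MulAction G V] {T : SimpleGraph V} (hT : T.IsTree)
    (hact : ∀ (g : G) (u v : V), T.Adj u v → T.Adj (g • u) (g • v))
    (hV : ∀ v : V, C ↥(MulAction.stabilizer G v))
    (hct : ∀ v u : V, T.Adj v u → ∀ x a b : G, x • v = v → x • u = u → x ≠ 1 → a • v = v →
      b • v = v → a * x = x * a → b * x = x * b → a * b = b * a)
    (hmal : ∀ v u : V, T.Adj v u → ∀ x g : G, x • v = v → x • u = u → x ≠ 1 → g • v = v →
      x * (g * x * g⁻¹) = g * x * g⁻¹ * x → g * x = x * g)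
    (hab : ∀ u v : V, T.Adj u v → ∀ x y : G, x • u = u → x • v = v → y • u = u → y • v = v →
      x * y = y * x) : C G := by
  have hr : LR G T (rc G) := by
    refine ⟨fun w a _ => Or.inl rfl, ?_, ?_, ?_⟩
    · rintro w a b _ _ (rfl | ⟨h1, h2, h3⟩)
      · exact Or.inl rfl
      · exact Or.inr ⟨h2, h1, fun x y hx hx' hy hy' => (h3 y x hy hy' hx hx').symm⟩
    · rintro w a b c ha hb hc (rfl | ⟨h1, h2, h3⟩) h
      · exact h
      · rcases h with rfl | ⟨h4, h5, h6⟩
        · exact Or.inr ⟨h1, h2, h3⟩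
        · refine Or.inr ⟨h1, h5, fun x y hx hx' hy hy' => ?_⟩
          obtain ⟨z, hz, hz', hz1⟩ := h2
          exact hct w b hb z x y hz hz' hz1 hx hy (h3 x z hx hx' hz hz') (h6 z y hz hz' hy hy').symm
    · rintro g w a b (rfl | ⟨⟨x, hx, hx', hx1⟩, ⟨y, hy, hy', hy1⟩, h3⟩)
      · exact Or.inl rfl
      · have hc : ∀ (z : G) (v : V), z • v = v → (g * z * g⁻¹) • g • v = g • v := by
          intro z v hz
          rw [mul_smul, inv_smul_smul, mul_smul, hz]
        have hc' : ∀ (z : G) (v : V), z • g • v = g • v → (g⁻¹ * z * g) • v = v := by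
          intro z v hz
          rw [mul_smul, mul_smul, hz, inv_smul_smul]
        have h1 : ∀ z : G, z ≠ 1 → g * z * g⁻¹ ≠ 1 := by
          intro z hz h
          apply hz
          have : z = g⁻¹ * (g * z * g⁻¹) * g := by group
          rw [this, h]
          group
        refine Or.inr ⟨⟨_, hc x _ hx, hc x _ hx', h1 x hx1⟩, ⟨_, hc y _ hy, hc y _ hy', h1 y hy1⟩,
          fun p q hp hp' hq hq' => ?_⟩
        have h4 := h3 _ _ (hc' p _ hp) (hc' p _ hp') (hc' q _ hq) (hc' q _ hq')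
        have h5 : p * q = g * (g⁻¹ * p * g * (g⁻¹ * q * g)) * g⁻¹ := by group
        rw [h5, h4]
        group
  refine omega hC hM hA hT hact hr ?_ hV ?_
  · intro w a b ha hb hab' g hw hga hgb
    by_contra hg
    refine hab' (Or.inr ⟨⟨g, hw, hga, hg⟩, ⟨g, hw, hgb, hg⟩, fun x y hx hx' hy hy' => ?_⟩)
    exact hct w a ha g x y hw hga hg hx hy (hab w a ha x g hx hx' hw hga) (hab w b hb y g hy hy' hw hgb)
  · intro v u hvu
    refine ⟨Multiplicative ℤ, _, 1, hC.base.int, fun S _ hS x hx hxu => ?_⟩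
    by_contra hx1
    have hxv : x • v = v := (hS x (Subgroup.commutator_le_self S hx)).1
    have h1 : ∀ g ∈ S, g * x = x * g := by
      intro g hg
      obtain ⟨hgv, h2 | ⟨_, _, h2⟩⟩ := hS g hg
      · exact hab v u hvu g x hgv h2.symm hxv hxu
      · have h3 : x * (g * x * g⁻¹) = g * x * g⁻¹ * x := by
          refine h2 x (g * x * g⁻¹) hxv hxu ?_ ?_
          · have h4 : g⁻¹ • v = v := inv_smul_eq_iff.2 hgv.symm
            rw [mul_smul, mul_smul, h4, hxv, hgv]
          · rw [mul_smul, inv_smul_smul, mul_smul, hxu]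
        exact hmal v u hvu x g hxv hxu hx1 hgv h3
    have h2 : ⁅S, S⁆ = ⊥ := by
      rw [eq_bot_iff, Subgroup.commutator_le]
      intro a ha b hb
      rw [Subgroup.mem_bot, commutatorElement_eq_one_iff_mul_comm]
      exact hct v u hvu x a b hxv hxu hx1 (hS a ha).1 (hS b hb).1 (h1 a ha) (h1 b hb)
    rw [h2, Subgroup.mem_bot] at hx
    exact hx1 hx

/-- **abelian edge groups and CSA vertex groups** -/
theorem csa (hC : ClosedE C) (hM : ∀ (G : Type) [Group G], derivedSeries G 2 = ⊥ → C G)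
    (hA : Acyl C) {G V : Type} [Group G] [MulAction G V] {T : SimpleGraph V} (hT : T.IsTree)
    (hact : ∀ (g : G) (u v : V), T.Adj u v → T.Adj (g • u) (g • v))
    (hV : ∀ v : V, C ↥(MulAction.stabilizer G v))
    (hcsa : ∀ v : V, IsCSA ↥(MulAction.stabilizer G v))
    (hab : ∀ u v : V, T.Adj u v → ∀ x y : G, x • u = u → x • v = v → y • u = u → y • v = v →
      x * y = y * x) : C G := by
  refine abel hC hM hA hT hact hV ?_ ?_ hab
  · intro v _ _ x a b hx _ hx1 ha hb hax hbx
    have := (hcsa v).ct (x := ⟨x, hx⟩) (a := ⟨a, ha⟩) (b := ⟨b, hb⟩)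
      (fun h => hx1 (congrArg Subtype.val h)) (Subtype.ext hax) (Subtype.ext hbx)
    exact congrArg Subtype.val this
  · intro v _ _ x g hx _ hx1 hg h
    have := (hcsa v).mal (x := ⟨x, hx⟩) (g := ⟨g, hg⟩)
      (fun h => hx1 (congrArg Subtype.val h)) (Subtype.ext h)
    exact congrArg Subtype.val this

end Pool.Agent.N509.TK
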