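import Pool.Agent.N509.TK.St

/-!
# Trees of cylinders

`r w` is an equivalence relation on the neighbours of `w`; the edges of a tree fall into cylinders, and the
vertices and the cylinders form a tree.
-/

set_option autoImplicit false

namespace Pool.Agent.N509.TK

open SimpleGraph

/-- an equivariant family of equivalence relations on the links -/
structure LR (G : Type) {V : Type} [Group G] [MulAction G V] (T : SimpleGraph V)
    (r : V → V → V → Prop) : Prop where
  refl : ∀ w a, T.Adj w a → r w a a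
  symm : ∀ w a b, T.Adj w a → T.Adj w b → r w a b → r w b a
  trans : ∀ w a b c, T.Adj w a → T.Adj w b → T.Adj w c → r w a b → r w b c → r w a c
  eqv : ∀ (g : G) (w a b : V), r w a b → r (g • w) (g • a) (g • b)

section cyl

variable {V : Type} (T : SimpleGraph V) (r : V → V → V → Prop)

/-- the oriented edges -/
abbrev Dt : Type := {p : V × V // T.Adj p.1 p.2}

/-- the oriented edge from `v` to `a` -/
def dt {T : SimpleGraph V} {v a : V} (h : T.Adj v a) : Dt T := ⟨(v, a), h⟩

/-- one step -/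
def lk (p q : Dt T) : Prop := q.1 = p.1.swap ∨ (p.1.1 = q.1.1 ∧ r p.1.1 p.1.2 q.1.2)

/-- the cylinders -/
def cs : Setoid (Dt T) := Relation.EqvGen.setoid (lk T r)

/-- the set of the cylinders -/
abbrev Cyl : Type := Quotient (cs T r)

variable {T r}

/-- the cylinder of an edge -/
def cy (r : V → V → V → Prop) {v a : V} (h : T.Adj v a) : Cyl T r := Quotient.mk (cs T r) (dt h)

/-- `p` is in the directions `c` from `w` -/
def Kd (T : SimpleGraph V) (w : V) (c : V → Prop) (p : V × V) : Prop :=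
  (p.1 = w ∧ c p.2) ∨ (p.1 ≠ w ∧ ∃ s, St T w s p.1 ∧ c s)

theorem Kd_lk (hT : T.IsTree) {w : V} {c : V → Prop}
    (hc : ∀ a b, T.Adj w a → T.Adj w b → r w a b → (c a ↔ c b)) {p q : Dt T} (h : lk T r p q) :
    Kd T w c p.1 ↔ Kd T w c q.1 := by
  obtain ⟨⟨a, b⟩, hab⟩ := p
  obtain ⟨⟨a', b'⟩, hab'⟩ := q
  have hab : T.Adj a b := hab
  have hab' : T.Adj a' b' := hab'
  rcases h with h | ⟨h1, h2⟩
  · have h3 : a' = b := congrArg Prod.fst h
    have h4 : b' = a := congrArg Prod.snd h
    subst h3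
    subst h4
    have key : ∀ x y : V, T.Adj x y → Kd T w c (x, y) → Kd T w c (y, x) := by
      intro x y hxy hk
      rcases hk with ⟨h1, h2⟩ | ⟨h1, s, hs, hcs⟩
      · change x = w at h1
        change c y at h2
        subst h1
        exact Or.inr ⟨hxy.ne.symm, y, St_adj hxy, h2⟩
      · change x ≠ w at h1
        change St T w s x at hs
        by_cases hy : y = w
        · subst hy
          left
          refine ⟨rfl, ?_⟩
          show c x
          rwa [← St_unique hT.isAcyclic hs (St_adj hxy.symm)]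
        · refine Or.inr ⟨hy, s, St_walk hs (Walk.cons hxy Walk.nil) ?_, hcs⟩
          simp only [Walk.support_cons, Walk.support_nil, List.mem_cons, List.not_mem_nil, or_false]
          rintro (rfl | rfl)
          · exact h1 rfl
          · exact hy rfl
    exact ⟨key _ _ hab, key _ _ hab'⟩
  · change a = a' at h1
    subst h1
    change r a b b' at h2
    by_cases ha : a = w
    · subst ha
      have h3 := hc b b' hab hab' h2
      constructor
      · rintro (⟨_, h4⟩ | ⟨h4, _⟩)
        · exact Or.inl ⟨rfl, h3.1 h4⟩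
        · exact absurd rfl h4
      · rintro (⟨_, h4⟩ | ⟨h4, _⟩)
        · exact Or.inl ⟨rfl, h3.2 h4⟩
        · exact absurd rfl h4
    · constructor
      · rintro (⟨h4, _⟩ | ⟨_, h4⟩)
        · exact absurd h4 ha
        · exact Or.inr ⟨ha, h4⟩
      · rintro (⟨h4, _⟩ | ⟨_, h4⟩)
        · exact absurd h4 ha
        · exact Or.inr ⟨ha, h4⟩

theorem Kd_gen (hT : T.IsTree) {w : V} {c : V → Prop}
    (hc : ∀ a b, T.Adj w a → T.Adj w b → r w a b → (c a ↔ c b)) {p q : Dt T}
    (h : Relation.EqvGen (lk T r) p q) : Kd T w c p.1 ↔ Kd T w c q.1 := by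
  induction h with
  | rel x y h => exact Kd_lk hT hc h
  | refl x => exact Iff.rfl
  | symm x y _ ih => exact ih.symm
  | trans x y z _ _ ih1 ih2 => exact ih1.trans ih2

theorem Kd_cs (hT : T.IsTree) {w : V} {c : V → Prop}
    (hc : ∀ a b, T.Adj w a → T.Adj w b → r w a b → (c a ↔ c b)) {v a v' a' : V}
    (hv : T.Adj v a) (hv' : T.Adj v' a') (h : cy r hv = cy r hv') :
    Kd T w c (v, a) ↔ Kd T w c (v', a') :=
  Kd_gen (p := dt hv) (q := dt hv') hT hc (Quotient.exact h)

/-- `v` is a vertex of the cylinder `y` -/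
def Mem (y : Cyl T r) (v : V) : Prop := ∃ (a : V) (h : T.Adj v a), cy r h = y

theorem cy_symm {v a : V} (h : T.Adj v a) : cy r h.symm = cy r h :=
  (Quotient.sound (Relation.EqvGen.rel _ _ (Or.inl rfl)) : cy r h = cy r h.symm).symm

theorem cy_rel {v a b : V} (ha : T.Adj v a) (hb : T.Adj v b) (h : r v a b) : cy r ha = cy r hb :=
  Quotient.sound (Relation.EqvGen.rel _ _ (Or.inr ⟨rfl, h⟩))

theorem Mem_cy {v a : V} (h : T.Adj v a) : Mem (cy r h) v := ⟨a, h, rfl⟩

theorem Mem_cy' {v a : V} (h : T.Adj v a) : Mem (cy r h) a := ⟨v, h.symm, cy_symm h⟩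

end cyl

section main

variable {G V : Type} [Group G] [MulAction G V] {T : SimpleGraph V} {r : V → V → V → Prop}

/-- the relation at `v` can be recovered from the cylinders -/
theorem gl (hT : T.IsTree) (hr : LR G T r) {v a b : V} (ha : T.Adj v a) (hb : T.Adj v b)
    (h : cy r ha = cy r hb) : r v a b := by
  have h1 := Kd_cs (c := fun s => T.Adj v s ∧ r v a s) (w := v) hT ?_ ha hb h
  · rcases h1.1 (Or.inl ⟨rfl, ha, hr.refl v a ha⟩) with ⟨_, _, h2⟩ | ⟨h2, _⟩
    · exact h2
    · exact absurd rfl h2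
  · intro x y hx hy hxy
    constructor
    · rintro ⟨_, h2⟩
      exact ⟨hy, hr.trans v a x y ha hx hy h2 hxy⟩
    · rintro ⟨_, h2⟩
      exact ⟨hx, hr.trans v a y x ha hy hx h2 (hr.symm v x y hx hy hxy)⟩

/-- the cylinders are convex -/
theorem f1 (hT : T.IsTree) (hr : LR G T r) {y : Cyl T r} {v v' s : V} (hv : Mem y v)
    (hv' : Mem y v') (hs : St T v s v') : cy r hs.1 = y := by
  obtain ⟨a, ha, hay⟩ := hv
  obtain ⟨b, hb, hby⟩ := hv'
  have h1 := Kd_cs (c := fun s => T.Adj v s ∧ r v a s) (w := v) hT ?_ ha hb (hay.trans hby.symm)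
  · rcases h1.1 (Or.inl ⟨rfl, ha, hr.refl v a ha⟩) with ⟨h2, _⟩ | ⟨_, s', hs', hs'1, h2⟩
    · exact absurd h2.symm hs.ne
    · have h3 : s' = s := St_unique hT.isAcyclic hs' hs
      subst h3
      rw [← hay]
      exact (cy_rel ha hs.1 h2).symm
  · intro x y hx hy hxy
    constructor
    · rintro ⟨_, h2⟩
      exact ⟨hy, hr.trans v a x y ha hx hy h2 hxy⟩
    · rintro ⟨_, h2⟩
      exact ⟨hx, hr.trans v a y x ha hy hx h2 (hr.symm v x y hx hy hxy)⟩

variable (T r) in
/-- the graph of the vertices and cylinders -/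
def BB : SimpleGraph (V ⊕ Cyl T r) where
  Adj x x' := (∃ v y, x = Sum.inl v ∧ x' = Sum.inr y ∧ Mem y v) ∨
    (∃ v y, x' = Sum.inl v ∧ x = Sum.inr y ∧ Mem y v)
  symm := ⟨fun _ _ h => h.symm⟩
  loopless := ⟨by
    rintro x (⟨v, y, rfl, h, _⟩ | ⟨v, y, rfl, h, _⟩)
    · exact absurd h (by simp)
    · exact absurd h (by simp)⟩

theorem BB_adj {v : V} {y : Cyl T r} : (BB T r).Adj (Sum.inl v) (Sum.inr y) ↔ Mem y v := by
  constructor
  · rintro (⟨v', y', h1, h2, h3⟩ | ⟨v', y', h1, h2, h3⟩)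
    · cases h1
      cases h2
      exact h3
    · exact absurd h1 (by simp)
  · intro h
    exact Or.inl ⟨v, y, rfl, rfl, h⟩

theorem BB_cases {x x' : V ⊕ Cyl T r} (h : (BB T r).Adj x x') :
    (∃ v y, x = Sum.inl v ∧ x' = Sum.inr y ∧ Mem y v) ∨
      (∃ v y, x' = Sum.inl v ∧ x = Sum.inr y ∧ Mem y v) := h

/-- the side of the edge `(v, y)` which contains `y` -/
def side (T : SimpleGraph V) (r : V → V → V → Prop) (v : V) (y : Cyl T r) : V ⊕ Cyl T r → Prop
  | Sum.inl w => ∃ (s : V) (h : St T v s w), cy r h.1 = y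
  | Sum.inr z => ∃ p : Dt T, Quotient.mk (cs T r) p = z ∧
      Kd T v (fun s => ∃ h : T.Adj v s, cy r h = y) p.1

theorem side_inr (hT : T.IsTree) {v : V} {y : Cyl T r} {p : Dt T} :
    side T r v y (Sum.inr (Quotient.mk (cs T r) p)) ↔
      Kd T v (fun s => ∃ h : T.Adj v s, cy r h = y) p.1 := by
  constructor
  · rintro ⟨q, hq, h⟩
    refine (Kd_gen hT ?_ (Quotient.exact hq)).1 h
    intro a b ha hb hab
    constructor
    · rintro ⟨_, h1⟩
      exact ⟨hb, (cy_rel ha hb hab).symm.trans h1⟩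
    · rintro ⟨_, h1⟩
      exact ⟨ha, (cy_rel ha hb hab).trans h1⟩
  · intro h
    exact ⟨p, rfl, h⟩

/-- the edges do not join the two sides -/
theorem side_adj (hT : T.IsTree) {v : V} {y : Cyl T r} {w : V} {z : Cyl T r}
    (hw : Mem z w) (hne : ¬ (w = v ∧ z = y)) :
    side T r v y (Sum.inl w) ↔ side T r v y (Sum.inr z) := by
  obtain ⟨b, hb, rfl⟩ := hw
  show side T r v y (Sum.inl w) ↔ side T r v y (Sum.inr (Quotient.mk (cs T r) (dt hb)))
  rw [side_inr hT]
  constructor
  · rintro ⟨s, hs, h⟩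
    exact Or.inr ⟨hs.ne.symm, s, hs, hs.1, h⟩
  · rintro (⟨h1, h2⟩ | ⟨h1, s, hs, _, h2⟩)
    · change w = v at h1
      subst h1
      obtain ⟨_, h3⟩ := h2
      exact absurd ⟨rfl, h3⟩ hne
    · exact ⟨s, hs, h2⟩

theorem BB_tree (hT : T.IsTree) (hr : LR G T r) : (BB T r).IsTree := by
  constructor
  · -- connected
    have h1 : ∀ u v : V, (BB T r).Reachable (Sum.inl u) (Sum.inl v) := by
      intro u v
      obtain ⟨p⟩ := hT.connected.preconnected u v
      induction p with
      | nil => exact Reachable.refl _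
      | @cons u w v h p ih =>
        have h2 : (BB T r).Adj (Sum.inl u) (Sum.inr (cy r h)) := BB_adj.2 (Mem_cy h)
        have h3 : (BB T r).Adj (Sum.inl w) (Sum.inr (cy r h)) := BB_adj.2 (Mem_cy' h)
        exact (h2.reachable.trans h3.symm.reachable).trans ih
    have h2 : ∀ x : V ⊕ Cyl T r, ∃ v : V, (BB T r).Reachable x (Sum.inl v) := by
      rintro (v | y)
      · exact ⟨v, Reachable.refl _⟩
      · obtain ⟨⟨⟨v, a⟩, h⟩, rfl⟩ := Quotient.exists_rep y
        have h3 : (BB T r).Adj (Sum.inl v) (Sum.inr (cy r h)) := BB_adj.2 (Mem_cy h)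
        exact ⟨v, h3.symm.reachable⟩
    obtain ⟨o⟩ := hT.connected.nonempty
    have : Nonempty (V ⊕ Cyl T r) := ⟨Sum.inl o⟩
    refine ⟨fun x x' => ?_⟩
    obtain ⟨v, hv⟩ := h2 x
    obtain ⟨v', hv'⟩ := h2 x'
    exact (hv.trans (h1 v v')).trans hv'.symm
  · -- acyclic
    have key : ∀ (v : V) (y : Cyl T r), Mem y v →
        ¬ ((BB T r) \ fromEdgeSet {s(Sum.inl v, Sum.inr y)}).Reachable (Sum.inl v) (Sum.inr y) := by
      intro v y hvy hreach
      have h1 : ∀ x x' : V ⊕ Cyl T r, ((BB T r) \ fromEdgeSet {s(Sum.inl v, Sum.inr y)}).Adj x x' →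
          (side T r v y x ↔ side T r v y x') := by
        intro x x' hxx
        rw [sdiff_adj, fromEdgeSet_adj] at hxx
        obtain ⟨h2, h3⟩ := hxx
        rcases BB_cases h2 with ⟨w, z, rfl, rfl, h4⟩ | ⟨w, z, rfl, rfl, h4⟩
        · refine side_adj hT h4 ?_
          rintro ⟨rfl, rfl⟩
          exact h3 ⟨rfl, by simp⟩
        · refine (side_adj hT h4 ?_).symm
          rintro ⟨rfl, rfl⟩
          exact h3 ⟨Sym2.eq_swap, by simp⟩
      have h2 : side T r v y (Sum.inl v) ↔ side T r v y (Sum.inr y) := by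
        obtain ⟨p⟩ := hreach
        have h5 : ∀ x x' : V ⊕ Cyl T r,
            ((BB T r) \ fromEdgeSet {s(Sum.inl v, Sum.inr y)}).Walk x x' →
            (side T r v y x ↔ side T r v y x') := by
          intro x x' q
          induction q with
          | nil => exact Iff.rfl
          | cons h q ih => exact (h1 _ _ h).trans ih
        exact h5 _ _ p
      obtain ⟨a, ha, rfl⟩ := hvy
      have h3 : side T r v (cy r ha) (Sum.inr (cy r ha)) := by
        show side T r v (cy r ha) (Sum.inr (Quotient.mk (cs T r) (dt ha)))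
        rw [side_inr hT]
        exact Or.inl ⟨rfl, ha, rfl⟩
      obtain ⟨s, hs, _⟩ := h2.2 h3
      exact hs.ne rfl
    rw [isAcyclic_iff_forall_adj_isBridge]
    intro x x' hxx
    rw [isBridge_iff]
    rcases BB_cases hxx with ⟨w, z, rfl, rfl, h4⟩ | ⟨w, z, rfl, rfl, h4⟩
    · exact key w z h4
    · intro h5
      rw [Sym2.eq_swap] at h5
      exact key w z h4 h5.symm

end main

end Pool.Agent.N509.TK
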