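import Pool.Agent.N509.TK.Cy
import Pool.Agent.N509.TK.Loc2

/-!
# Trees of cylinders and acylindrical actions
-/

set_option autoImplicit false

namespace Pool.Agent.N509.TK

open SimpleGraph
open Pool.Agent.Y110.FJ
open Pool.Agent.R941.FJ (C_equiv C_le C_cyc mem_sup_normal)

/-- the class contains the finitely generated groups which act acylindrically and without inversions
on trees with stabilizers in the class: the pointwise stabilizers of the paths of length at least `k`
are trivial -/
def Acyl (C : ∀ (G : Type) [Group G], Prop) : Prop :=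
  ∀ (G V : Type) [Group G] [MulAction G V] (T : SimpleGraph V), Group.FG G → T.IsTree →
    (∀ (g : G) (u v : V), T.Adj u v → T.Adj (g • u) (g • v)) →
    (∀ (g : G) (u v : V), T.Adj u v → ¬ (g • u = v ∧ g • v = u)) →
    (∃ k : ℕ, ∀ (u v : V) (p : T.Walk u v), p.IsPath → k ≤ p.length →
      ∀ g : G, (∀ x ∈ p.support, g • x = x) → g = 1) →
    (∀ v : V, C ↥(MulAction.stabilizer G v)) → C G

variable {C : ∀ (G : Type) [Group G], Prop}

section act

variable {G V : Type} [Group G] [MulAction G V] {T : SimpleGraph V} {r : V → V → V → Prop}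

/-- the translate of an oriented edge -/
def tr (hact : ∀ (g : G) (u v : V), T.Adj u v → T.Adj (g • u) (g • v)) (g : G) (p : Dt T) : Dt T :=
  ⟨(g • p.1.1, g • p.1.2), hact g _ _ p.2⟩

theorem tr_gen (hact : ∀ (g : G) (u v : V), T.Adj u v → T.Adj (g • u) (g • v)) (hr : LR G T r)
    (g : G) {p q : Dt T} (h : Relation.EqvGen (lk T r) p q) :
    Relation.EqvGen (lk T r) (tr hact g p) (tr hact g q) := by
  induction h with
  | rel x y h =>
    refine Relation.EqvGen.rel _ _ ?_
    rcases h with h | ⟨h1, h2⟩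
    · left
      show (g • y.1.1, g • y.1.2) = (g • x.1.2, g • x.1.1)
      rw [h]
      rfl
    · right
      refine ⟨?_, hr.eqv g _ _ _ h2⟩
      show g • x.1.1 = g • y.1.1
      rw [h1]
  | refl x => exact Relation.EqvGen.refl _
  | symm x y _ ih => exact Relation.EqvGen.symm _ _ ih
  | trans x y z _ _ ih1 ih2 => exact Relation.EqvGen.trans _ _ _ ih1 ih2

/-- the action on the cylinders -/
@[instance_reducible] def cyAct (hact : ∀ (g : G) (u v : V), T.Adj u v → T.Adj (g • u) (g • v))
    (hr : LR G T r) : MulAction G (Cyl T r) where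
  smul g := Quotient.map (tr hact g) (fun _ _ h => tr_gen hact hr g h)
  one_smul := by
    rintro ⟨p⟩
    refine congrArg (Quotient.mk (cs T r)) (Subtype.ext ?_)
    exact Prod.ext (one_smul G _) (one_smul G _)
  mul_smul g h := by
    rintro ⟨p⟩
    refine congrArg (Quotient.mk (cs T r)) (Subtype.ext ?_)
    exact Prod.ext (mul_smul g h _) (mul_smul g h _)

theorem cyAct_cy (hact : ∀ (g : G) (u v : V), T.Adj u v → T.Adj (g • u) (g • v))
    (hr : LR G T r) (g : G) {v a : V} (h : T.Adj v a) :
    (cyAct hact hr).smul g (cy r h) = cy r (hact g v a h) := rfl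

/-- `g` maps the cylinder `y` to itself -/
def Pres (hact : ∀ (g : G) (u v : V), T.Adj u v → T.Adj (g • u) (g • v)) (y : Cyl T r) (g : G) :
    Prop := ∀ (v a : V) (h : T.Adj v a), cy r h = y → cy r (hact g v a h) = y

/-- the case of finitely generated groups -/
theorem cyl_fg (hC : ClosedE C) (hA : Acyl C) (hfg : Group.FG G) (hT : T.IsTree)
    (hact : ∀ (g : G) (u v : V), T.Adj u v → T.Adj (g • u) (g • v)) (hr : LR G T r)
    (hint : ∀ w a b, T.Adj w a → T.Adj w b → ¬ r w a b →
      ∀ g : G, g • w = w → g • a = a → g • b = b → g = 1)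
    (hV : ∀ v : V, C ↥(MulAction.stabilizer G v))
    (hY : ∀ (y : Cyl T r) (K : Subgroup G), (∀ g ∈ K, Pres hact y g) → C K) : C G := by
  let _ := cyAct hact hr
  have hcy : ∀ (g : G) {v a : V} (h : T.Adj v a), g • (cy r h) = cy r (hact g v a h) :=
    fun g {v a} h => rfl
  refine hA G (V ⊕ Cyl T r) (BB T r) hfg (BB_tree hT hr) ?_ ?_ ⟨5, ?_⟩ ?_
  · intro g x x' h
    have hmem : ∀ (v : V) (y : Cyl T r), Mem y v → Mem (g • y) (g • v) := by
      rintro v _ ⟨a, ha, rfl⟩
      exact ⟨g • a, hact g v a ha, (hcy g ha).symm⟩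
    rcases BB_cases h with ⟨v, y, rfl, rfl, h1⟩ | ⟨v, y, rfl, rfl, h1⟩
    · exact Or.inl ⟨g • v, g • y, rfl, rfl, hmem v y h1⟩
    · exact Or.inr ⟨g • v, g • y, rfl, rfl, hmem v y h1⟩
  · rintro g x x' h ⟨h1, _⟩
    rcases BB_cases h with ⟨v, y, rfl, rfl, _⟩ | ⟨v, y, rfl, rfl, _⟩
    · exact absurd h1 (by simp)
    · exact absurd h1 (by simp)
  · -- acylindricity
    have key : ∀ (v0 v1 v2 : V) (y0 y1 : Cyl T r) (g : G), v0 ≠ v1 → v1 ≠ v2 → y0 ≠ y1 →
        Mem y0 v0 → Mem y0 v1 → Mem y1 v1 → Mem y1 v2 →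
        g • v0 = v0 → g • v1 = v1 → g • v2 = v2 → g = 1 := by
      intro v0 v1 v2 y0 y1 g h01 h12 hy m00 m01 m11 m12 hg0 hg1 hg2
      obtain ⟨s, hs⟩ := St_exists hT h01.symm
      obtain ⟨t, ht⟩ := St_exists hT h12
      have hs1 := f1 hT hr m01 m00 hs
      have ht1 := f1 hT hr m11 m12 ht
      have hgs : g • s = s := by
        have := St_smul hact g hs
        rw [hg0, hg1] at this
        exact St_unique hT.isAcyclic this hs
      have hgt : g • t = t := by
        have := St_smul hact g ht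
        rw [hg1, hg2] at this
        exact St_unique hT.isAcyclic this ht
      refine hint v1 s t hs.1 ht.1 (fun h => hy ?_) g hg1 hgs hgt
      rw [← hs1, ← ht1]
      exact cy_rel hs.1 ht.1 h
    have four : ∀ (x0 x1 x2 x3 x4 : V ⊕ Cyl T r) (g : G) (v0 : V), x0 = Sum.inl v0 →
        (BB T r).Adj x0 x1 → (BB T r).Adj x1 x2 → (BB T r).Adj x2 x3 → (BB T r).Adj x3 x4 →
        x0 ≠ x2 → x1 ≠ x3 → x2 ≠ x4 → g • x0 = x0 → g • x2 = x2 → g • x4 = x4 → g = 1 := by
      rintro x0 x1 x2 x3 x4 g v0 rfl h01 h12 h23 h34 n02 n13 n24 g0 g2 g4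
      rcases BB_cases h01 with ⟨_, y0, h, rfl, m00⟩ | ⟨_, _, _, h, _⟩
      swap
      · exact absurd h (by simp)
      cases h
      rcases BB_cases h12 with ⟨_, _, h, _, _⟩ | ⟨v1, _, rfl, h, m01⟩
      · exact absurd h (by simp)
      cases h
      rcases BB_cases h23 with ⟨_, y1, h, rfl, m11⟩ | ⟨_, _, _, h, _⟩
      swap
      · exact absurd h (by simp)
      cases h
      rcases BB_cases h34 with ⟨_, _, h, _, _⟩ | ⟨v2, _, rfl, h, m12⟩
      · exact absurd h (by simp)
      cases h
      refine key v0 v1 v2 y0 y1 g ?_ ?_ ?_ m00 m01 m11 m12 (Sum.inl_injective g0)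
        (Sum.inl_injective g2) (Sum.inl_injective g4)
      · rintro rfl
        exact n02 rfl
      · rintro rfl
        exact n24 rfl
      · rintro rfl
        exact n13 rfl
    intro x x' p hp hlen g hg
    -- the first vertices of the path
    cases p with
    | nil => exact absurd hlen (by simp)
    | @cons _ x1 _ h01 p =>
    cases p with
    | nil => exact absurd hlen (by simp)
    | @cons _ x2 _ h12 p =>
    cases p with
    | nil => exact absurd hlen (by simp)
    | @cons _ x3 _ h23 p =>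
    cases p with
    | nil => exact absurd hlen (by simp)
    | @cons _ x4 _ h34 p =>
    cases p with
    | nil => exact absurd hlen (by simp)
    | @cons _ x5 _ h45 p =>
    have hnd := hp.support_nodup
    simp only [Walk.support_cons, List.nodup_cons, List.mem_cons, not_or] at hnd
    obtain ⟨⟨n01, n02, n03, n04, n0⟩, ⟨n12, n13, n14, n1⟩, ⟨n23, n24, n2⟩, ⟨n34, n3⟩, n4, _⟩ := hnd
    have n35 : x3 ≠ x5 := fun h => n3 (h ▸ Walk.start_mem_support p)
    have hg' : ∀ z, z = x ∨ z = x1 ∨ z = x2 ∨ z = x3 ∨ z = x4 ∨ z ∈ p.support → g • z = z := by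
      intro z hz
      apply hg
      simpa only [Walk.support_cons, List.mem_cons] using hz
    rcases BB_cases h01 with ⟨v0, _, h, _, _⟩ | ⟨v1, _, h, _, _⟩
    · exact four x x1 x2 x3 x4 g v0 h h01 h12 h23 h34 n02 n13 n24 (hg' _ (by simp))
        (hg' _ (by simp)) (hg' _ (by simp))
    · refine four x1 x2 x3 x4 x5 g v1 h h12 h23 h34 h45 n13 n24 n35 (hg' _ (by simp))
        (hg' _ (by simp)) (hg' _ ?_)
      simp
  · rintro (v | y)
    · refine C_le hC.base (H := MulAction.stabilizer G (Sum.inl v : V ⊕ Cyl T r))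
        (K := MulAction.stabilizer G v) ?_ (hV v)
      intro g hg
      exact Sum.inl_injective hg
    · refine hY y _ ?_
      intro g hg v a h hya
      have h1 : g • y = y := Sum.inr_injective hg
      rw [← hcy g h, hya, h1]

/-- **the theorem on cylinders** -/
theorem cyl (hC : ClosedE C) (hA : Acyl C) (hT : T.IsTree)
    (hact : ∀ (g : G) (u v : V), T.Adj u v → T.Adj (g • u) (g • v)) (hr : LR G T r)
    (hint : ∀ w a b, T.Adj w a → T.Adj w b → ¬ r w a b →
      ∀ g : G, g • w = w → g • a = a → g • b = b → g = 1)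
    (hV : ∀ v : V, C ↥(MulAction.stabilizer G v))
    (hY : ∀ (y : Cyl T r) (K : Subgroup G), (∀ g ∈ K, Pres hact y g) → C K) : C G := by
  classical
  refine Pool.Agent.Y430.SS.of_directed hC.base G (Finset G) (fun i j => ?_)
    (fun s => Subgroup.closure (s : Set G))
    (fun s t h => Subgroup.closure_mono (by exact_mod_cast h))
    (fun g => ⟨{g}, Subgroup.subset_closure (by simp)⟩) (fun S => ?_)
  · exact ⟨i ∪ j, Finset.subset_union_left, Finset.subset_union_right⟩
  obtain ⟨H, hH⟩ : ∃ H : Subgroup G, H = Subgroup.closure (S : Set G) := ⟨_, rfl⟩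
  show C (Subgroup.closure (S : Set G))
  rw [← hH]
  have hfg : Group.FG H := (Group.fg_iff_subgroup_fg H).2 ⟨S, hH.symm⟩
  have hactH : ∀ (g : H) (u v : V), T.Adj u v → T.Adj (g • u) (g • v) := fun g u v h => hact g u v h
  refine cyl_fg (G := H) hC hA hfg hT hactH
    ⟨hr.refl, hr.symm, hr.trans, fun g w a b h => hr.eqv (g : G) w a b h⟩ ?_ ?_ ?_
  · intro w a b ha hb hab g hgw hga hgb
    exact Subtype.ext (hint w a b ha hb hab g hgw hga hgb)
  · intro v
    refine hC.base.of_injective _ _ (((H.subtype).comp (Subgroup.subtype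
      (MulAction.stabilizer H v))).codRestrict (MulAction.stabilizer G v) ?_) ?_ (hV v)
    · rintro ⟨y, hy⟩
      exact hy
    · intro a b hab
      have h1 := congrArg Subtype.val hab
      exact Subtype.ext (Subtype.ext h1)
  · intro y K hK
    refine C_equiv hC.base (K.equivMapOfInjective H.subtype H.subtype_injective) (hY y _ ?_)
    rintro _ ⟨g, hg, rfl⟩
    exact hK g hg

end act

end Pool.Agent.N509.TK
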