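import Pool.Agent.N509.TK.Ext
import Pool.Agent.N509.TK.Tq

/-!
# One homomorphism which is injective on the stabilizers of the edges
-/

set_option autoImplicit false

namespace Pool.Agent.N509.TK

open SimpleGraph
open Pool.Agent.Y110.FJ

variable {G V : Type} {T : SimpleGraph V} [Group G] [MulAction G V]
  {C : ∀ (G : Type) [Group G], Prop}

/-- **one homomorphism injective on the stabilizers of the edges** -/
theorem crit (hC : ClosedE C) (hT : T.IsTree)
    (hact : ∀ (g : G) (u v : V), T.Adj u v → T.Adj (g • u) (g • v))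
    {P : Type} [Group P] (f : G →* P) (hP : C P)
    (hE : ∀ u v : V, T.Adj u v → ∀ g : G, g • u = u → g • v = v → f g = 1 → g = 1)
    (hV : ∀ (v : V) (g : G), g • v = v →
      C ↥((MulAction.stabilizer G v ⊓ f.ker) ⊔ Subgroup.zpowers g)) : C G := by
  obtain ⟨R, hRd⟩ : ∃ R : V → Subgroup G, R = fun v => MulAction.stabilizer G v ⊓ f.ker := ⟨_, rfl⟩
  have hmem : ∀ v x, x ∈ R v ↔ x • v = v ∧ f x = 1 := by
    intro v x
    rw [hRd]
    exact Iff.rfl
  have hR : Fam T R := by
    refine ⟨fun v r hr => ((hmem v r).1 hr).1, fun g v r hr => ?_, fun u v huv r hr hru => ?_⟩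
    · rw [hmem] at hr ⊢
      refine ⟨?_, ?_⟩
      · rw [mul_smul, inv_smul_smul, mul_smul, hr.1]
      · rw [map_mul, map_mul, hr.2, mul_one, ← map_mul, mul_inv_cancel, map_one]
    · rw [hmem] at hr
      exact hE u v huv r hru hr.1 hr.2
  have hn := hR.normal
  have hle : (⨆ v, R v) ≤ f.ker := iSup_le fun v x hx => ((hmem v x).1 hx).2
  refine ext hC hT hact hR ?_ (fun v g hg => by
    have := hV v g hg
    rw [hRd]
    exact this)
  obtain ⟨S, hS⟩ := Tv.exists (R := R) hT
  refine quot_tree hC hT hact (Tq.of_Tv hT hact hR hS) f hP (fun h hh => hle hh)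
    fun v g hg hfg => le_iSup R v ((hmem v g).2 ⟨hg, hfg⟩)

end Pool.Agent.N509.TK
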