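import Pool.Agent.N24.TR.Tree

/-!
# Groups acting on trees: first steps

`St T p a x`: the path from `p` to `x` starts with the edge from `p` to `a`.
-/

set_option autoImplicit false

namespace Pool.Agent.N509.TK

open SimpleGraph

section st

variable {V : Type} {T : SimpleGraph V}

/-- `a` is the second vertex of the path from `p` to `x` -/
def St (T : SimpleGraph V) (p a x : V) : Prop := T.Adj p a ∧ ∃ q : T.Walk a x, p ∉ q.support

theorem St.ne {p a x : V} (h : St T p a x) : p ≠ x := by
  obtain ⟨_, q, hq⟩ := h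
  rintro rfl
  exact hq q.end_mem_support

theorem St_adj {p a : V} (h : T.Adj p a) : St T p a a :=
  ⟨h, Walk.nil, by simpa using h.ne⟩

/-- two neighbours of a vertex are not joined outside of it -/
theorem tl (hT : T.IsAcyclic) {p a b : V} (ha : T.Adj p a) (hb : T.Adj p b) (q : T.Walk a b)
    (hq : p ∉ q.support) : a = b := by
  classical
  have h1 : p ∉ q.bypass.support := fun h => hq (q.support_bypass_subset_support h)
  have h2 : (Walk.cons ha q.bypass).IsPath := (Walk.cons_isPath_iff ha _).2 ⟨q.bypass_isPath, h1⟩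
  have h3 := congrArg Subtype.val ((hT.subsingleton_path p b).elim ⟨_, h2⟩ (Path.singleton hb))
  have h4 : (Walk.cons ha q.bypass).support = (Path.singleton hb : T.Walk p b).support :=
    congrArg Walk.support h3
  have h5 : (Path.singleton hb : T.Walk p b).support = [p, b] := rfl
  rw [h5, Walk.support_cons] at h4
  have h6 : q.bypass.support = [b] := (List.cons.inj h4).2
  have h7 : a ∈ q.bypass.support := Walk.start_mem_support _
  rw [h6, List.mem_singleton] at h7
  exact h7

theorem St_unique (hT : T.IsAcyclic) {p a b x : V} (ha : St T p a x) (hb : St T p b x) : a = b := by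
  obtain ⟨ha, q, hq⟩ := ha
  obtain ⟨hb, r, hr⟩ := hb
  refine tl hT ha hb (q.append r.reverse) ?_
  rw [Walk.mem_support_append_iff, Walk.support_reverse, List.mem_reverse]
  rintro (h | h)
  · exact hq h
  · exact hr h

theorem St_exists (hT : T.IsTree) {p x : V} (h : p ≠ x) : ∃ a, St T p a x := by
  obtain ⟨q, hq, -⟩ := hT.existsUnique_path p x
  cases q with
  | nil => exact absurd rfl h
  | @cons _ a _ h1 q' =>
    rw [Walk.cons_isPath_iff] at hq
    exact ⟨a, h1, q', hq.2⟩

/-- the step along a walk which avoids `p` -/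
theorem St_walk {p a x y : V} (h : St T p a x) (q : T.Walk x y) (hq : p ∉ q.support) :
    St T p a y := by
  obtain ⟨ha, r, hr⟩ := h
  refine ⟨ha, r.append q, ?_⟩
  rw [Walk.mem_support_append_iff]
  rintro (h | h)
  · exact hr h
  · exact hq h

/-- if the path from `q` to `x` does not start toward `p`, then the path from `p` to `x` starts
toward `q` -/
theorem St_trans (hT : T.IsTree) {p q x a b c : V} (h : St T q a x) (h1 : St T q b p) (hab : a ≠ b)
    (h2 : St T p c q) : St T p c x := by
  classical
  obtain ⟨ha, r, hr⟩ := h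
  refine St_walk h2 (Walk.cons ha r) ?_
  rw [Walk.support_cons, List.mem_cons]
  rintro (h3 | h3)
  · exact h2.ne h3
  · apply hab
    refine St_unique hT.isAcyclic (x := p) ⟨ha, r.takeUntil p h3, ?_⟩ h1
    exact fun h4 => hr (r.support_takeUntil_subset_support h3 h4)

end st

section action

variable {G V : Type} {T : SimpleGraph V} [Group G] [MulAction G V]

theorem St_smul (hact : ∀ (g : G) (u v : V), T.Adj u v → T.Adj (g • u) (g • v)) (g : G) {p a x : V}
    (h : St T p a x) : St T (g • p) (g • a) (g • x) := by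
  obtain ⟨ha, q, hq⟩ := h
  obtain ⟨q', hq'⟩ := N24.TR.map_walk hact g q
  refine ⟨hact g _ _ ha, q', fun h => ?_⟩
  obtain ⟨y, hy, hpy⟩ := hq' _ h
  rw [smul_left_cancel g hpy] at hq
  exact hq hy

/-- an equivariant family of subgroups which act freely on the links of their vertices -/
structure Fam (T : SimpleGraph V) (R : V → Subgroup G) : Prop where
  fix : ∀ v, ∀ r ∈ R v, r • v = v
  eqv : ∀ (g : G) (v : V), ∀ r ∈ R v, g * r * g⁻¹ ∈ R (g • v)
  fre : ∀ u v, T.Adj u v → ∀ r ∈ R v, r • u = u → r = 1

variable {R : V → Subgroup G}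

/-- a nontrivial element of `R v` fixes only `v` -/
theorem Fam.unique (hT : T.IsTree)
    (hact : ∀ (g : G) (u v : V), T.Adj u v → T.Adj (g • u) (g • v)) (hR : Fam T R) {v w : V} {r : G}
    (hr : r ∈ R v) (hw : r • w = w) (h1 : r ≠ 1) : w = v := by
  by_contra h
  obtain ⟨a, ha⟩ := St_exists hT (p := v) (x := w) (fun h2 => h h2.symm)
  have h2 := St_smul hact r ha
  rw [hR.fix v r hr, hw] at h2
  exact h1 (hR.fre a v ha.1.symm r hr (St_unique hT.isAcyclic h2 ha))

theorem Fam.conj_mem (hR : Fam T R) {g x : G} {v w : V} (h : w = g • v) :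
    x ∈ R v ↔ g * x * g⁻¹ ∈ R w := by
  subst h
  refine ⟨hR.eqv g v x, fun h => ?_⟩
  have h1 := hR.eqv g⁻¹ _ _ h
  rw [inv_smul_smul] at h1
  have h2 : g⁻¹ * (g * x * g⁻¹) * g⁻¹⁻¹ = x := by group
  rwa [h2] at h1

end action

end Pool.Agent.N509.TK
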