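import Pool.Agent.N509.TK.St
import Pool.Agent.R684.FP.Main

/-!
# Transversals

For a family `R` of subgroups fixing vertices and acting freely on the links there is a subtree which is
a transversal for the group generated by the family; this group is a free product.
-/

set_option autoImplicit false

namespace Pool.Agent.N509.TK

open SimpleGraph

variable {G V : Type} {T : SimpleGraph V} [Group G] [MulAction G V] {R : V → Subgroup G}

/-- connected sets of vertices in which no two neighbours of a vertex `v` are equivalent under `R v` -/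
structure Good (T : SimpleGraph V) (R : V → Subgroup G) (S : Set V) : Prop where
  ne : S.Nonempty
  cvx : ∀ x ∈ S, ∀ y ∈ S, ∃ p : T.Walk x y, ∀ z ∈ p.support, z ∈ S
  lc : ∀ v ∈ S, ∀ u ∈ S, ∀ w ∈ S, T.Adj v u → T.Adj v w → ∀ r ∈ R v, r • u = w → u = w

/-- transversals -/
structure Tv (T : SimpleGraph V) (R : V → Subgroup G) (S : Set V) : Prop extends Good T R S where
  max : ∀ s ∈ S, ∀ w, T.Adj s w → ∃ u ∈ S, T.Adj s u ∧ ∃ r ∈ R s, r • u = w

theorem Good.exists_max (hT : T.IsTree) : ∃ S : Set V, Maximal (Good T R) S := by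
  obtain ⟨o⟩ := hT.connected.nonempty
  have h0 : Good T R {o} := by
    refine ⟨⟨o, rfl⟩, ?_, ?_⟩
    · rintro x rfl y rfl
      exact ⟨Walk.nil, fun z hz => by simpa using hz⟩
    · rintro v rfl u rfl w rfl _ _ _ _ _
      rfl
  suffices hch : ∀ c ⊆ {S | Good T R S}, IsChain (· ⊆ ·) c → c.Nonempty →
      ∃ ub ∈ {S | Good T R S}, ∀ s ∈ c, s ⊆ ub by
    obtain ⟨S, -, hS⟩ := zorn_subset_nonempty {S | Good T R S} hch {o} h0
    exact ⟨S, hS⟩
  intro c hc hch hcn
  refine ⟨⋃₀ c, ⟨?_, ?_, ?_⟩, fun s hs => Set.subset_sUnion_of_mem hs⟩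
  · obtain ⟨S, hS⟩ := hcn
    obtain ⟨x, hx⟩ := (hc hS).ne
    exact ⟨x, S, hS, hx⟩
  · rintro x ⟨A, hA, hxA⟩ y ⟨B, hB, hyB⟩
    obtain ⟨D, hD, hAD, hBD⟩ : ∃ D ∈ c, A ⊆ D ∧ B ⊆ D := by
      rcases hch.total hA hB with h | h
      · exact ⟨B, hB, h, le_rfl⟩
      · exact ⟨A, hA, le_rfl, h⟩
    obtain ⟨p, hp⟩ := (hc hD).cvx x (hAD hxA) y (hBD hyB)
    exact ⟨p, fun z hz => ⟨D, hD, hp z hz⟩⟩
  · rintro v ⟨A, hA, hv⟩ u ⟨B, hB, hu⟩ w ⟨E, hE, hw⟩ h1 h2 r hr hru
    obtain ⟨D, hD, hAD, hBD⟩ : ∃ D ∈ c, A ⊆ D ∧ B ⊆ D := by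
      rcases hch.total hA hB with h | h
      · exact ⟨B, hB, h, le_rfl⟩
      · exact ⟨A, hA, le_rfl, h⟩
    obtain ⟨F, hF, hDF, hEF⟩ : ∃ F ∈ c, D ⊆ F ∧ E ⊆ F := by
      rcases hch.total hD hE with h | h
      · exact ⟨E, hE, h, le_rfl⟩
      · exact ⟨D, hD, le_rfl, h⟩
    exact (hc hF).lc v (hDF (hAD hv)) u (hDF (hBD hu)) w (hEF hw) h1 h2 r hr hru

theorem Tv.exists (hT : T.IsTree) : ∃ S : Set V, Tv T R S := by
  obtain ⟨S, hS⟩ := Good.exists_max (R := R) hT
  refine ⟨S, hS.1, fun s hs w hsw => ?_⟩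
  by_contra hcon
  push Not at hcon
  have hw : w ∉ S := fun h => hcon w h hsw 1 (one_mem _) (one_smul _ _)
  -- the neighbours of `w` in `S`
  have hnb : ∀ u ∈ S, T.Adj w u → u = s := by
    intro u hu hwu
    obtain ⟨p, hp⟩ := hS.1.cvx u hu s hs
    exact tl hT.isAcyclic hwu hsw.symm p (fun h => hw (hp w h))
  have hgood : Good T R (insert w S) := by
    refine ⟨⟨w, Set.mem_insert _ _⟩, ?_, ?_⟩
    · rintro x (rfl | hx) y (rfl | hy)
      · exact ⟨Walk.nil, fun z hz => Or.inl (by simpa using hz)⟩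
      · obtain ⟨p, hp⟩ := hS.1.cvx s hs y hy
        refine ⟨Walk.cons hsw.symm p, fun z hz => ?_⟩
        rw [Walk.support_cons, List.mem_cons] at hz
        rcases hz with rfl | hz
        · exact Set.mem_insert _ _
        · exact Set.mem_insert_of_mem _ (hp z hz)
      · obtain ⟨p, hp⟩ := hS.1.cvx s hs x hx
        refine ⟨(Walk.cons hsw.symm p).reverse, fun z hz => ?_⟩
        rw [Walk.support_reverse, List.mem_reverse, Walk.support_cons, List.mem_cons] at hz
        rcases hz with rfl | hz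
        · exact Set.mem_insert _ _
        · exact Set.mem_insert_of_mem _ (hp z hz)
      · obtain ⟨p, hp⟩ := hS.1.cvx x hx y hy
        exact ⟨p, fun z hz => Set.mem_insert_of_mem _ (hp z hz)⟩
    · rintro v (rfl | hv) u (rfl | hu) w' (rfl | hw') h1 h2 r hr hru
      · exact absurd rfl h1.ne
      · exact absurd rfl h1.ne
      · exact absurd rfl h2.ne
      · rw [hnb u hu h1, hnb w' hw' h2]
      · rfl
      · have hvs := hnb v hv h1.symm
        subst hvs
        refine absurd ?_ (hcon w' hw' h2 r⁻¹ ((R v).inv_mem hr))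
        rw [← hru, inv_smul_smul]
      · have hvs := hnb v hv h2.symm
        subst hvs
        exact absurd hru (hcon u hu h1 r hr)
      · exact hS.1.lc v hv u hu w' hw' h1 h2 r hr hru
  exact hw (hS.2 hgood (Set.subset_insert _ _) (Set.mem_insert _ _))

variable {S : Set V}

theorem Good.St_mem (hT : T.IsTree) (hS : Good T R S) {p a x : V} (hp : p ∈ S) (hx : x ∈ S)
    (h : St T p a x) : a ∈ S := by
  classical
  obtain ⟨q, hq⟩ := hS.cvx p hp x hx
  have h1 := q.bypass_isPath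
  have h2 : ∀ z ∈ q.bypass.support, z ∈ S := fun z hz => hq z (q.support_bypass_subset_support hz)
  cases hb : q.bypass with
  | nil => exact absurd rfl h.ne
  | @cons _ b _ h3 q' =>
    rw [hb, Walk.cons_isPath_iff] at h1
    have h4 : b ∈ S := h2 b (by rw [hb]; simp)
    rwa [St_unique hT.isAcyclic h ⟨h3, q', h1.2⟩]

/-- the vertices whose path from `p` starts outside `S` -/
def XS (T : SimpleGraph V) (S : Set V) (p : V) : Set V := {x | ∃ w, w ∉ S ∧ St T p w x}

/-- the vertices which project to `p` -/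
def YS (T : SimpleGraph V) (S : Set V) (p : V) : Set V := {x | x = p ∨ x ∈ XS T S p}

theorem XS_YS {p x : V} (h : x ∈ XS T S p) : x ∈ YS T S p := Or.inr h

theorem Good.not_XS (hT : T.IsTree) (hS : Good T R S) {p x : V} (hp : p ∈ S) (hx : x ∈ S) :
    x ∉ XS T S p := by
  rintro ⟨w, hw, h⟩
  exact hw (hS.St_mem hT hp hx h)

theorem Good.YS_St (hT : T.IsTree) (hS : Good T R S) {p q x : V} (hp : p ∈ S) (hq : q ∈ S)
    (hpq : p ≠ q) (hx : x ∈ YS T S q) : ∃ c ∈ S, St T p c x := by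
  obtain ⟨c, hc⟩ := St_exists hT hpq
  refine ⟨c, hS.St_mem hT hp hq hc, ?_⟩
  rcases hx with rfl | ⟨w, hw, h⟩
  · exact hc
  · obtain ⟨b, hb⟩ := St_exists hT hpq.symm
    have hbS := hS.St_mem hT hq hp hb
    exact St_trans hT h hb (fun h => hw (h ▸ hbS)) hc

/-- ping-pong -/
theorem pp (hT : T.IsTree) (hact : ∀ (g : G) (u v : V), T.Adj u v → T.Adj (g • u) (g • v))
    (hR : Fam T R) (hS : Good T R S) {p q x : V} (hp : p ∈ S) (hq : q ∈ S) (hpq : p ≠ q) {r : G}
    (hr : r ∈ R p) (h1 : r ≠ 1) (hx : x ∈ YS T S q) : r • x ∈ XS T S p := by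
  obtain ⟨c, hc, h⟩ := hS.YS_St hT hp hq hpq hx
  have h2 := St_smul hact r h
  rw [hR.fix p r hr] at h2
  refine ⟨r • c, fun hrc => ?_, h2⟩
  have h3 := hS.lc p hp c hc (r • c) hrc h.1 h2.1 r hr rfl
  exact h1 (hR.fre c p h.1.symm r hr h3.symm)

section fp

variable {I : Type} (p : I → V)

theorem fp1 (hT : T.IsTree) (hact : ∀ (g : G) (u v : V), T.Adj u v → T.Adj (g • u) (g • v))
    (hR : Fam T R) (hS : Good T R S) (hp : ∀ i, p i ∈ S) (hinj : Function.Injective p) {i j : I}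
    (w : Monoid.CoprodI.NeWord (fun i => R (p i)) i j) :
    ∀ (k x : V), k ∈ S → k ≠ p j → x ∈ YS T S k →
      (Monoid.CoprodI.lift fun i => (R (p i)).subtype) w.prod • x ∈ XS T S (p i) := by
  induction w with
  | @singleton i a ha =>
    intro k x hk hkj hx
    rw [Monoid.CoprodI.NeWord.prod_singleton, Monoid.CoprodI.lift_of]
    refine pp hT hact hR hS (hp i) hk (fun h => hkj h.symm) a.2 ?_ hx
    exact fun h => ha (Subtype.ext h)
  | @append i j k l w₁ hne w₂ ih₁ ih₂ =>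
    intro m x hm hml hx
    rw [Monoid.CoprodI.NeWord.append_prod, map_mul, mul_smul]
    exact ih₁ (p k) _ (hp k) (fun h => hne (hinj h).symm) (XS_YS (ih₂ m x hm hml hx))

theorem fp2 (hT : T.IsTree) (hact : ∀ (g : G) (u v : V), T.Adj u v → T.Adj (g • u) (g • v))
    (hR : Fam T R) (hS : Good T R S) (hp : ∀ i, p i ∈ S) (hinj : Function.Injective p) {i j : I}
    (w : Monoid.CoprodI.NeWord (fun i => R (p i)) i j) :
    (i = j ∧ (Monoid.CoprodI.lift fun i => (R (p i)).subtype) w.prod ∈ R (p j) ∧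
      (Monoid.CoprodI.lift fun i => (R (p i)).subtype) w.prod ≠ 1) ∨
      (Monoid.CoprodI.lift fun i => (R (p i)).subtype) w.prod • p j ∈ XS T S (p i) := by
  induction w with
  | @singleton i a ha =>
    left
    rw [Monoid.CoprodI.NeWord.prod_singleton, Monoid.CoprodI.lift_of]
    exact ⟨rfl, a.2, fun h => ha (Subtype.ext h)⟩
  | @append i j k l w₁ hne w₂ ih₁ ih₂ =>
    right
    rw [Monoid.CoprodI.NeWord.append_prod, map_mul, mul_smul]
    refine fp1 p hT hact hR hS hp hinj w₁ (p k) _ (hp k) (fun h => hne (hinj h).symm) ?_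
    rcases ih₂ with ⟨rfl, h1, -⟩ | h
    · left
      exact hR.fix _ _ h1
    · exact XS_YS h

/-- the group generated by the `R (p i)` is their free product -/
theorem fp_inj (hT : T.IsTree) (hact : ∀ (g : G) (u v : V), T.Adj u v → T.Adj (g • u) (g • v))
    (hR : Fam T R) (hS : Good T R S) (hp : ∀ i, p i ∈ S) (hinj : Function.Injective p) :
    Function.Injective (Monoid.CoprodI.lift fun i => (R (p i)).subtype) := by
  classical
  rw [injective_iff_map_eq_one]
  intro z hz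
  obtain ⟨w, rfl⟩ : ∃ w : Monoid.CoprodI.Word (fun i => R (p i)), w.prod = z :=
    ⟨Monoid.CoprodI.Word.equiv z, Monoid.CoprodI.Word.equiv.symm_apply_apply z⟩
  by_cases hw : w = Monoid.CoprodI.Word.empty
  · rw [hw]
    exact Monoid.CoprodI.Word.prod_empty
  obtain ⟨i, j, n, rfl⟩ := Monoid.CoprodI.NeWord.of_word w hw
  change Monoid.CoprodI.lift _ n.prod = 1 at hz
  rcases fp2 p hT hact hR hS hp hinj n with ⟨-, -, h⟩ | h
  · exact absurd hz h
  · rw [hz, one_smul] at h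
    exact absurd h (hS.not_XS hT (hp i) (hp j))

/-- stabilizers -/
theorem fp_stab (hT : T.IsTree) (hact : ∀ (g : G) (u v : V), T.Adj u v → T.Adj (g • u) (g • v))
    (hR : Fam T R) (hS : Good T R S) (hp : ∀ i, p i ∈ S) (hinj : Function.Injective p) {x : G}
    (hx : x ∈ ⨆ i, R (p i)) {s s' : V} (hs : s ∈ S) (hs' : s' ∈ S) (h : x • s = s') :
    s = s' ∧ x ∈ R s := by
  classical
  have h0 : (⨆ i, R (p i)) = (Monoid.CoprodI.lift fun i => (R (p i)).subtype).range := by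
    rw [Monoid.CoprodI.range_eq_iSup]
    congr 1
    funext i
    exact (R (p i)).range_subtype.symm
  rw [h0] at hx
  obtain ⟨z, rfl⟩ := hx
  obtain ⟨w, rfl⟩ : ∃ w : Monoid.CoprodI.Word (fun i => R (p i)), w.prod = z :=
    ⟨Monoid.CoprodI.Word.equiv z, Monoid.CoprodI.Word.equiv.symm_apply_apply z⟩
  by_cases hw : w = Monoid.CoprodI.Word.empty
  · subst hw
    rw [Monoid.CoprodI.Word.prod_empty, map_one] at h ⊢
    rw [one_smul] at h
    exact ⟨h, one_mem _⟩
  obtain ⟨i, j, n, rfl⟩ := Monoid.CoprodI.NeWord.of_word w hw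
  change Monoid.CoprodI.lift _ n.prod • s = s' at h
  change s = s' ∧ Monoid.CoprodI.lift _ n.prod ∈ R s
  by_cases hsj : s = p j
  · subst hsj
    rcases fp2 p hT hact hR hS hp hinj n with ⟨-, h1, -⟩ | h1
    · rw [hR.fix _ _ h1] at h
      exact ⟨h, h1⟩
    · rw [h] at h1
      exact absurd h1 (hS.not_XS hT (hp i) hs')
  · have h1 := fp1 p hT hact hR hS hp hinj n s s hs hsj (Or.inl rfl)
    rw [h] at h1
    exact absurd h1 (hS.not_XS hT (hp i) hs')

end fp

/-- the index set of the nontrivial factors -/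
abbrev Ix (R : V → Subgroup G) (S : Set V) : Type := {s : V // s ∈ S ∧ R s ≠ ⊥}

theorem le_Ix {s : V} (hs : s ∈ S) : R s ≤ ⨆ i : Ix R S, R i.1 := by
  by_cases h : R s = ⊥
  · rw [h]
    exact bot_le
  · exact le_iSup (fun i : Ix R S => R i.1) ⟨s, hs, h⟩

theorem Tv.cover' (hT : T.IsTree) (hact : ∀ (g : G) (u v : V), T.Adj u v → T.Adj (g • u) (g • v))
    (hS : Tv T R S) (v : V) :
    ∃ h ∈ ⨆ i : Ix R S, R i.1, ∃ s ∈ S, v = h • s := by
  obtain ⟨o, ho⟩ := hS.ne
  obtain ⟨q⟩ := hT.connected.preconnected o v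
  have key : ∀ (u v : V) (q : T.Walk u v), (∃ h ∈ ⨆ i : Ix R S, R i.1, ∃ s ∈ S, u = h • s) →
      ∃ h ∈ ⨆ i : Ix R S, R i.1, ∃ s ∈ S, v = h • s := by
    intro u v q
    induction q with
    | nil => exact id
    | @cons u w v hadj q ih =>
      rintro ⟨h, hh, s, hs, rfl⟩
      apply ih
      have h1 := hact h⁻¹ _ _ hadj
      rw [inv_smul_smul] at h1
      obtain ⟨u', hu', -, r, hr, h2⟩ := hS.max s hs _ h1
      refine ⟨h * r, mul_mem hh (le_Ix hs hr), u', hu', ?_⟩
      rw [mul_smul, h2, smul_inv_smul]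
  exact key o v q ⟨1, one_mem _, o, ho, (one_smul _ _).symm⟩

theorem Tv.sup (hT : T.IsTree) (hact : ∀ (g : G) (u v : V), T.Adj u v → T.Adj (g • u) (g • v))
    (hR : Fam T R) (hS : Tv T R S) : (⨆ i : Ix R S, R i.1) = ⨆ v, R v := by
  apply le_antisymm
  · exact iSup_le fun i => le_iSup R i.1
  · refine iSup_le fun v x hx => ?_
    obtain ⟨h, hh, s, hs, rfl⟩ := hS.cover' hT hact v
    have h1 := hR.eqv h⁻¹ _ x hx
    rw [inv_smul_smul] at h1
    have h2 := le_Ix hs h1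
    have h3 := mul_mem (mul_mem hh h2) (inv_mem hh)
    have h4 : h * (h⁻¹ * x * h⁻¹⁻¹) * h⁻¹ = x := by group
    rwa [h4] at h3

theorem Tv.cover (hT : T.IsTree) (hact : ∀ (g : G) (u v : V), T.Adj u v → T.Adj (g • u) (g • v))
    (hR : Fam T R) (hS : Tv T R S) (v : V) : ∃ h ∈ ⨆ v, R v, ∃ s ∈ S, v = h • s := by
  rw [← hS.sup hT hact hR]
  exact hS.cover' hT hact v

theorem Tv.freeProd (hT : T.IsTree)
    (hact : ∀ (g : G) (u v : V), T.Adj u v → T.Adj (g • u) (g • v)) (hR : Fam T R)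
    (hS : Tv T R S) : R684.FP.IsFreeProd (⨆ v, R v) (fun i : Ix R S => R i.1) :=
  ⟨hS.sup hT hact hR, fp_inj _ hT hact hR hS.toGood (fun i => i.2.1) Subtype.val_injective⟩

theorem Tv.trans (hT : T.IsTree) (hact : ∀ (g : G) (u v : V), T.Adj u v → T.Adj (g • u) (g • v))
    (hR : Fam T R) (hS : Tv T R S) {x : G} (hx : x ∈ ⨆ v, R v) {s s' : V} (hs : s ∈ S)
    (hs' : s' ∈ S) (h : x • s = s') : s = s' ∧ x ∈ R s := by
  rw [← hS.sup hT hact hR] at hx
  exact fp_stab _ hT hact hR hS.toGood (fun i => i.2.1) Subtype.val_injective hx hs hs' h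

/-- the stabilizers of the group generated by the family -/
theorem Tv.stab (hT : T.IsTree) (hact : ∀ (g : G) (u v : V), T.Adj u v → T.Adj (g • u) (g • v))
    (hR : Fam T R) (hS : Tv T R S) {x : G} (hx : x ∈ ⨆ v, R v) {v : V} (h : x • v = v) :
    x ∈ R v := by
  obtain ⟨a, ha, s, hs, rfl⟩ := hS.cover hT hact hR v
  have h1 : a⁻¹ * x * a ∈ ⨆ v, R v := mul_mem (mul_mem (inv_mem ha) hx) ha
  have h2 : (a⁻¹ * x * a) • s = s := by rw [mul_smul, mul_smul, h, inv_smul_smul]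
  have h3 := (hS.trans hT hact hR h1 hs hs h2).2
  have h4 := hR.eqv a s _ h3
  have h5 : a * (a⁻¹ * x * a) * a⁻¹ = x := by group
  rwa [h5] at h4

end Pool.Agent.N509.TK
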